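import Mathlib
import Pool.Agent.H340R2.LW

/-! Values at `± √(2 π i)` of polynomials over number fields, and `1 / π`. -/

set_option autoImplicit false

namespace Pool.Agent.Helper264.NT

open NumberField

/-- the even part of a polynomial -/
theorem even_part {K : Type} [Field K] (io : K →+* ℂ) (Q : Polynomial K) :
    ∃ A : Polynomial K, ∀ ρ : ℂ, Q.eval₂ io ρ + Q.eval₂ io (-ρ) = 2 * A.eval₂ io (ρ ^ 2) := by
  induction Q using Polynomial.induction_on' with
  | add p q hp hq =>
    obtain ⟨A, hA⟩ := hp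
    obtain ⟨B, hB⟩ := hq
    refine ⟨A + B, fun ρ => ?_⟩
    rw [Polynomial.eval₂_add, Polynomial.eval₂_add, Polynomial.eval₂_add, mul_add, ← hA, ← hB]
    ring
  | monomial n a =>
    rcases Nat.even_or_odd' n with ⟨m, rfl | rfl⟩
    · refine ⟨Polynomial.monomial m a, fun ρ => ?_⟩
      rw [Polynomial.eval₂_monomial, Polynomial.eval₂_monomial, Polynomial.eval₂_monomial, Even.neg_pow (even_two_mul m),
        pow_mul]
      ring
    · refine ⟨0, fun ρ => ?_⟩
      rw [Polynomial.eval₂_monomial, Polynomial.eval₂_monomial, Polynomial.eval₂_zero,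
        Odd.neg_pow ⟨m, rfl⟩]
      ring

/-- a number which is the value of a polynomial at `ρ` and at `-ρ`, `ρ ^ 2 = 2 π i` -/
theorem even_value {K : Type} [Field K] (io : K →+* ℂ) (Q : Polynomial K) {ρ v w : ℂ} (hρ : ρ ^ 2 = w)
    (h1 : Q.eval₂ io ρ = v) (h2 : Q.eval₂ io (-ρ) = v) : ∃ R : Polynomial K, v = R.eval₂ io w := by
  obtain ⟨A, hA⟩ := even_part io Q
  refine ⟨A, ?_⟩
  have h3 := hA ρ
  rw [h1, h2, hρ] at h3
  have h4 : (2 : ℂ) * v = 2 * A.eval₂ io w := by rw [← h3]; ring
  exact mul_left_cancel₀ two_ne_zero h4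

/-- the value at a scalar matrix is a polynomial in the scalar -/
theorem scalar_value {σ : Type} {K : Type} [Field K] [NumberField K] (io : K →+* ℂ) (D : σ → Prop) [DecidablePred D]
    (P : MvPolynomial σ (𝓞 K)) : ∃ Q : Polynomial K, ∀ ρ : ℂ,
      MvPolynomial.eval₂ (io.comp (algebraMap (𝓞 K) K)) (fun v => if D v then ρ else 0) P = Q.eval₂ io ρ := by
  refine ⟨MvPolynomial.eval₂ (Polynomial.C.comp (algebraMap (𝓞 K) K))
    (fun v => if D v then (Polynomial.X : Polynomial K) else 0) P, fun ρ => ?_⟩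
  have h1 : (Polynomial.eval₂RingHom io ρ) (MvPolynomial.eval₂ (Polynomial.C.comp (algebraMap (𝓞 K) K))
      (fun v => if D v then (Polynomial.X : Polynomial K) else 0) P) =
      MvPolynomial.eval₂ ((Polynomial.eval₂RingHom io ρ).comp (Polynomial.C.comp (algebraMap (𝓞 K) K)))
        (fun v => (Polynomial.eval₂RingHom io ρ) (if D v then (Polynomial.X : Polynomial K) else 0)) P :=
    MvPolynomial.hom_eval₂ _ _ _ _
  rw [Polynomial.coe_eval₂RingHom] at h1
  rw [h1]
  congr 1
  · ext a
    simp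
  · funext v
    by_cases hv : D v <;> simp [hv]

/-- `c / π` is not a polynomial in `2 π i` over a number field -/
theorem div_pi_ne {K : Type} [Field K] [NumberField K] (io : K →+* ℂ) (A : Polynomial K) {c : K} (hc : c ≠ 0) :
    io c / (Real.pi : ℂ) ≠ A.eval₂ io (2 * (Real.pi : ℂ) * Complex.I) := by
  intro h
  have hπ : (Real.pi : ℂ) ≠ 0 := Complex.ofReal_ne_zero.2 Real.pi_ne_zero
  have htr : Transcendental (algebraicClosure ℚ ℂ) (Real.pi : ℂ) :=
    Pool.Agent.H340R2.LW.transcendental_pi_complex.algebraicClosure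
  rw [transcendental_iff] at htr
  have hmem : ∀ x : K, io x ∈ algebraicClosure ℚ ℂ := fun x => by
    rw [mem_algebraicClosure_iff]
    have h1 : IsAlgebraic ℚ x := Algebra.IsAlgebraic.isAlgebraic x
    have h2 : io x = io.toRatAlgHom x := rfl
    rw [h2]
    exact h1.algHom io.toRatAlgHom
  let j : K →+* algebraicClosure ℚ ℂ := io.codRestrict (algebraicClosure ℚ ℂ).toSubfield hmem
  have hI : Complex.I ∈ algebraicClosure ℚ ℂ := by
    rw [mem_algebraicClosure_iff]
    refine ⟨Polynomial.X ^ 2 + 1, ?_, ?_⟩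
    · intro h0
      have h1 := congrArg (Polynomial.eval 0) h0
      simp at h1
    · simp
  have h2I : 2 * Complex.I ∈ algebraicClosure ℚ ℂ := by
    have h1 : (2 : ℂ) ∈ algebraicClosure ℚ ℂ := by
      have h2 := hmem 2
      rwa [map_ofNat] at h2
    exact mul_mem h1 hI
  let i' : algebraicClosure ℚ ℂ := ⟨2 * Complex.I, h2I⟩
  let S : Polynomial (algebraicClosure ℚ ℂ) := Polynomial.X * A.eval₂ (Polynomial.C.comp j)
    (Polynomial.C i' * Polynomial.X) - Polynomial.C (j c)
  have hS : Polynomial.aeval (Real.pi : ℂ) S = 0 := by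
    have h1 : Polynomial.aeval (Real.pi : ℂ) (A.eval₂ (Polynomial.C.comp j) (Polynomial.C i' * Polynomial.X)) =
        A.eval₂ io (2 * (Real.pi : ℂ) * Complex.I) := by
      have h2 : (Polynomial.aeval (Real.pi : ℂ) : Polynomial (algebraicClosure ℚ ℂ) →ₐ[_] ℂ).toRingHom
          (A.eval₂ (Polynomial.C.comp j) (Polynomial.C i' * Polynomial.X)) =
          A.eval₂ (((Polynomial.aeval (Real.pi : ℂ) : Polynomial (algebraicClosure ℚ ℂ) →ₐ[_] ℂ).toRingHom).comp
            (Polynomial.C.comp j)) ((Polynomial.aeval (Real.pi : ℂ) : Polynomial (algebraicClosure ℚ ℂ) →ₐ[_] ℂ).toRingHom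
            (Polynomial.C i' * Polynomial.X)) := Polynomial.hom_eval₂ _ _ _ _
      have h3 : (((Polynomial.aeval (Real.pi : ℂ) : Polynomial (algebraicClosure ℚ ℂ) →ₐ[_] ℂ).toRingHom).comp
            (Polynomial.C.comp j)) = io := by
        ext a
        simp only [RingHom.comp_apply]
        change Polynomial.aeval (Real.pi : ℂ) (Polynomial.C (j a)) = io a
        rw [Polynomial.aeval_C]
        rfl
      have h4 : (Polynomial.aeval (Real.pi : ℂ) : Polynomial (algebraicClosure ℚ ℂ) →ₐ[_] ℂ).toRingHom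
            (Polynomial.C i' * Polynomial.X) = 2 * (Real.pi : ℂ) * Complex.I := by
        have h5 : algebraMap (algebraicClosure ℚ ℂ) ℂ i' = 2 * Complex.I := rfl
        change Polynomial.aeval (Real.pi : ℂ) (Polynomial.C i' * Polynomial.X) = _
        rw [map_mul, Polynomial.aeval_C, Polynomial.aeval_X, h5]
        ring
      rw [h3, h4] at h2
      exact h2
    have h5 : algebraMap (algebraicClosure ℚ ℂ) ℂ (j c) = io c := rfl
    change Polynomial.aeval (Real.pi : ℂ) (Polynomial.X * A.eval₂ (Polynomial.C.comp j)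
      (Polynomial.C i' * Polynomial.X) - Polynomial.C (j c)) = 0
    rw [map_sub, map_mul, Polynomial.aeval_X, Polynomial.aeval_C, h1, h5, ← h]
    field_simp
    ring
  have h0 := htr S hS
  have h6 := congrArg (Polynomial.eval 0) h0
  simp only [S, Polynomial.eval_sub, Polynomial.eval_mul, Polynomial.eval_X, zero_mul, Polynomial.eval_C, zero_sub,
    Polynomial.eval_zero, neg_eq_zero] at h6
  have h7 : io c = 0 := congrArg Subtype.val h6
  exact hc ((map_eq_zero io).1 h7)

end Pool.Agent.Helper264.NT
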