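import Pool.Agent.Helper264.NT.NearR
import Pool.Agent.H327R2.SC.ExpPoly

/-! Near-point theorem for exponentials with linearly independent real frequencies and one constant with a good measure of
transcendence. -/

set_option autoImplicit false

open Height Filter Topology
open scoped ENNReal

namespace Pool.Agent.Helper264.NT

/-- evaluation after splitting off one variable -/
lemma eval_right {S : Type} (P : MvPolynomial (Option S) ℂ) (y : ℂ) (v : S → ℂ) :
    MvPolynomial.eval₂ (Polynomial.evalRingHom y) v (MvPolynomial.optionEquivRight ℂ S P) =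
      MvPolynomial.eval (fun o : Option S => o.elim y v) P := by
  induction P using MvPolynomial.induction_on with
  | C a =>
    rw [MvPolynomial.optionEquivRight_C, MvPolynomial.eval₂_C, MvPolynomial.eval_C]
    simp
  | add P Q hP hQ => rw [map_add, MvPolynomial.eval₂_add, hP, hQ, map_add]
  | mul_X P i hP =>
    have h1 : MvPolynomial.eval₂ (Polynomial.evalRingHom y) v
        (MvPolynomial.optionEquivRight ℂ S (MvPolynomial.X i)) = (i.elim y v : ℂ) := by
      cases i with
      | none =>
        rw [MvPolynomial.optionEquivRight_X_none, MvPolynomial.eval₂_C]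
        simp
      | some i =>
        rw [MvPolynomial.optionEquivRight_X_some, MvPolynomial.eval₂_X]
        rfl
    rw [map_mul, MvPolynomial.eval₂_mul, hP, h1, map_mul, MvPolynomial.eval_X]

/-- exponential polynomials with linearly independent real frequencies -/
lemma exp_indep {κ : Type} [Fintype κ] (b : κ → ℝ) (hb : LinearIndependent ℚ b) (P : MvPolynomial (Option κ) ℂ)
    (h : ∀ m : ℕ, MvPolynomial.eval (fun o : Option κ => o.elim (m : ℂ) fun q =>
      Complex.exp (((b q : ℝ) : ℂ) * m)) P = 0) : P = 0 := by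
  classical
  set p := MvPolynomial.optionEquivRight ℂ κ P with hp
  let lam : (κ →₀ ℕ) → ℂ := fun e => ((Real.exp (∑ o, (e o : ℝ) * b o) : ℝ) : ℂ)
  have hinj : Function.Injective lam := by
    intro e e' hee
    have h1 : ∑ o, (e o : ℝ) * b o = ∑ o, (e' o : ℝ) * b o := Real.exp_injective (Complex.ofReal_injective hee)
    have h2 : ∑ o, ((e o : ℚ) - (e' o : ℚ)) • b o = 0 := by
      have : ∀ o, ((e o : ℚ) - (e' o : ℚ)) • b o = (e o : ℝ) * b o - (e' o : ℝ) * b o := by
        intro o
        rw [Rat.smul_def]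
        push_cast
        ring
      simp only [this, Finset.sum_sub_distrib, h1, sub_self]
    have h3 := Fintype.linearIndependent_iff.1 hb _ h2
    ext o
    have h4 := h3 o
    have h5 : (e o : ℚ) = e' o := by linarith
    exact_mod_cast h5
  have hkey := Pool.Agent.H327R2.SC.expPoly_indep p.support lam hinj
    (fun e => by
      simp only [lam]
      exact Complex.ofReal_ne_zero.2 (Real.exp_pos _).ne') (fun e => p.coeff e) (by
      intro m
      have h1 := h m
      rw [← eval_right P (m : ℂ) fun q => Complex.exp (((b q : ℝ) : ℂ) * m), ← hp, MvPolynomial.eval₂_eq'] at h1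
      rw [← h1]
      refine Finset.sum_congr rfl fun e _ => ?_
      congr 1
      simp only [lam]
      rw [Complex.ofReal_exp, ← Complex.exp_nat_mul]
      have h2 : ∀ o, Complex.exp (((b o : ℝ) : ℂ) * m) ^ (e o) = Complex.exp ((e o : ℂ) * (((b o : ℝ) : ℂ) * m)) :=
        fun o => (Complex.exp_nat_mul _ _).symm
      simp only [h2]
      rw [← Complex.exp_sum]
      congr 1
      push_cast
      rw [Finset.mul_sum]
      exact Finset.sum_congr rfl fun o _ => by ring)
  have hp0 : p = 0 := by
    by_contra hne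
    obtain ⟨e, he⟩ := MvPolynomial.support_nonempty.2 hne
    exact (MvPolynomial.mem_support_iff.1 he) (hkey e he)
  exact (map_eq_zero_iff _ (MvPolynomial.optionEquivRight ℂ κ).injective).1 hp0

/-- **The near-point theorem for exponentials**, complex points. -/
theorem near_exp {κ : Type} [Fintype κ] (b : κ → ℝ) (hb : LinearIndependent ℚ b) (x : ℝ)
    (hx : Pool.Agent.Y124.GoodXi (fun _ : Unit => x)) (n : ℕ) (hn : 1 ≤ n) :
    ∃ E : Set (Fin n → ℂ), dimH E ≤ ((2 * (n - 1) : ℕ) : ℝ≥0∞) ∧ ∀ z ∉ E,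
      ∀ (K : IntermediateField ℚ ℂ) [NumberField K] (d : ℕ) (A w : ℝ), 0 < w → ∃ B T₀ : ℝ, ∀ T ≥ T₀,
        ∀ s : Fin n → K, (∀ j, mulHeight₁ (s j) ≤ T ∧ ‖(s j : ℂ) - z j‖ ≤ T ^ (-w)) →
          NoRelK (algebraMap K ℂ) (fun o : Option (Fin n × κ) => o.elim (x : ℂ) fun c =>
            Complex.exp (((b c.2 : ℝ) : ℂ) * (s c.1 : ℂ))) d A B T := by
  classical
  have hnn : Nonempty (Fin n) := ⟨⟨0, hn⟩⟩
  obtain ⟨E, hE1, hE2⟩ := mainK (𝕜 := ℂ) (X := Fin n) (RingHom.id ℂ) (fun _ => rfl)
    (fun _ (q : κ) (t : ℂ) => Complex.exp (((b q : ℝ) : ℂ) * t)) (fun _ : Unit => x) (fun _ => Set.univ)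
    (fun _ => isOpen_univ) (fun _ => isPreconnected_univ)
    (fun _ q t _ => (analyticAt_const.mul analyticAt_id).cexp)
    (fun _ P hP => exp_indep b hb P fun m => hP (m : ℂ) (Set.mem_univ _)) hx
  refine ⟨E, by simpa using hE1, fun z hz K _ d A w hw => ?_⟩
  obtain ⟨B, T0, h⟩ := hE2 z hz (fun _ => Set.mem_univ _) K d A w hw
  refine ⟨B, T0, fun T hT t ht => ?_⟩
  refine norel_rename (Equiv.optionEquivSumPUnit (Fin n × κ)) (algebraMap K ℂ)
    (fun _ (q : κ) (t : ℂ) => Complex.exp (((b q : ℝ) : ℂ) * t)) (fun _ : Unit => x) d A B T t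
    (h T hT t ht) (fun k => (ht k).1) _ ?_
  intro w
  cases w <;> rfl

/-- numbers with a good measure of transcendence are transcendental -/
lemma powers_indep (x : ℝ) (hx : Pool.Agent.Y124.GoodXi (fun _ : Unit => x)) (c : ℝ) (hc : c ≠ 0) (k : ℕ) :
    LinearIndependent ℚ (fun i : Fin k => c * x ^ (i : ℕ)) := by
  have h1 : AlgebraicIndependent ℤ (fun _ : Unit => x) := by
    rw [algebraicIndependent_iff]
    intro P hP
    by_contra hne
    obtain ⟨κ, c', hc', h⟩ := hx P.totalDegree
    obtain ⟨H, hH⟩ : ∃ H : ℝ, ∀ s, |((P.coeff s : ℤ) : ℝ)| ≤ H := by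
      refine ⟨∑ s ∈ P.support, |((P.coeff s : ℤ) : ℝ)|, fun s => ?_⟩
      by_cases hs : s ∈ P.support
      · exact Finset.single_le_sum (f := fun s => |((P.coeff s : ℤ) : ℝ)|) (fun _ _ => abs_nonneg _) hs
      · rw [MvPolynomial.notMem_support_iff.1 hs]
        simp only [Int.cast_zero, abs_zero]
        exact Finset.sum_nonneg fun _ _ => abs_nonneg _
    have h2 := h (max H 1) P (le_max_right _ _) hne le_rfl fun s => (hH s).trans (le_max_left _ _)
    rw [hP, abs_zero, mul_zero] at h2
    linarith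
  have h2 : Transcendental ℤ x := (algebraicIndependent_unique_type_iff).1 h1
  have h3 : Transcendental ℚ x := fun h => h2 ((IsFractionRing.isAlgebraic_iff ℤ ℚ ℝ).2 h)
  rw [Fintype.linearIndependent_iff]
  intro g hg i
  have h4 : Polynomial.aeval x (∑ i : Fin k, Polynomial.C (g i) * Polynomial.X ^ (i : ℕ)) = 0 := by
    rw [map_sum]
    have h5 : c * ∑ i : Fin k, (g i : ℝ) * x ^ (i : ℕ) = 0 := by
      rw [← hg, Finset.mul_sum]
      refine Finset.sum_congr rfl fun i _ => ?_
      rw [Rat.smul_def]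
      ring
    rw [← (mul_eq_zero.1 h5).resolve_left hc]
    refine Finset.sum_congr rfl fun i _ => ?_
    simp
  have h6 : (∑ i : Fin k, Polynomial.C (g i) * Polynomial.X ^ (i : ℕ)) = 0 := by
    by_contra hne
    exact h3 ⟨_, hne, h4⟩
  have h7 := congrArg (fun p => Polynomial.coeff p (i : ℕ)) h6
  simp only [Polynomial.finsetSum_coeff, Polynomial.coeff_C_mul, Polynomial.coeff_X_pow, Polynomial.coeff_zero] at h7
  rw [Finset.sum_eq_single i] at h7
  · simpa using h7
  · intro j _ hj
    rw [if_neg fun h => hj (Fin.ext h.symm), mul_zero]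
  · intro h
    exact absurd (Finset.mem_univ i) h

end Pool.Agent.Helper264.NT
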