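import Pool.Agent.Helper264.NT.TubeK
import Pool.Agent.Y771.KF.App

/-! Exceptional tuples near points: a set which lies on few hypersurfaces of bounded degree at each scale avoids the
neighbourhoods of all points outside of a set of dimension `n - 1`. -/

set_option autoImplicit false
set_option linter.unusedSectionVars false

namespace Pool.Agent.Helper264.NT

open Filter Topology MeasureTheory Set
open scoped ENNReal NNReal

/-- dyadic scales, in any metric space -/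
theorem dyadicM {M : Type*} [MetricSpace M] {s σ1 C : ℝ} (hs : 0 ≤ s) (hσ1 : 0 < σ1) (U : ℕ → Finset M)
    (hU : ∀ i, ((U i).card : ℝ) ≤ C * ((2 : ℝ) ^ i) ^ s) :
    ∃ E : Set M, dimH E ≤ ENNReal.ofReal (s / σ1) ∧ ∀ z ∉ E, ∃ i0 : ℕ, ∀ i ≥ i0, ∀ x ∈ U i,
      ¬ dist x z ≤ ((2 : ℝ) ^ i) ^ (-σ1) := by
  have hC0 : 0 ≤ C := by
    have h := hU 0
    simp only [pow_zero, Real.one_rpow, mul_one] at h
    exact (Nat.cast_nonneg _).trans h
  obtain ⟨E, hE1, hE2⟩ := Pool.Agent.H107.ME.dim_family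
    (fun t : M × ℕ => t.1) (fun t => (2 : ℝ) ^ t.2)
    (fun t => one_le_pow₀ (by norm_num)) hs hσ1 (J := Unit) (fun _ => {t | t.1 ∈ U t.2}) (by
      intro _ ε hε
      refine ⟨C * (1 / (ε * Real.log 2) + 1), fun X hX => ?_⟩
      classical
      set L : ℕ := Nat.log 2 ⌊X⌋₊ with hL
      have hfl : 1 ≤ ⌊X⌋₊ := Nat.le_floor (by simpa using hX)
      set F : Finset (M × ℕ) := (Finset.range (L + 1)).biUnion
        (fun i => (U i).image (fun x => (x, i))) with hF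
      have hsub : {t : M × ℕ | t ∈ {t : M × ℕ | t.1 ∈ U t.2} ∧ (2 : ℝ) ^ t.2 ≤ X} ⊆ ↑F := by
        rintro ⟨x, i⟩ ⟨h1, h2⟩
        have h1' : x ∈ U i := h1
        simp only [hF, Finset.coe_biUnion, Set.mem_iUnion, Finset.coe_range, Set.mem_Iio, Finset.coe_image,
          Set.mem_image, Finset.mem_coe]
        refine ⟨i, ?_, x, h1', rfl⟩
        have h3 : 2 ^ i ≤ ⌊X⌋₊ := Nat.le_floor (by push_cast; exact h2)
        exact Nat.lt_succ_of_le (Nat.le_log_of_pow_le (by norm_num) h3)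
      refine ⟨(Finset.finite_toSet F).subset hsub, ?_⟩
      have h4 : ({t : M × ℕ | t ∈ {t : M × ℕ | t.1 ∈ U t.2} ∧
          (2 : ℝ) ^ t.2 ≤ X}.ncard : ℝ) ≤ (F.card : ℝ) := by
        have := Set.ncard_le_ncard hsub (Finset.finite_toSet F)
        rw [Set.ncard_coe_finset] at this
        exact_mod_cast this
      have hLX : (2 : ℝ) ^ L ≤ X := by
        have h5 : 2 ^ L ≤ ⌊X⌋₊ := Nat.pow_log_le_self 2 (by omega)
        have h6 : ((2 ^ L : ℕ) : ℝ) ≤ (⌊X⌋₊ : ℝ) := by exact_mod_cast h5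
        push_cast at h6
        exact h6.trans (Nat.floor_le (by linarith))
      have h5 : (F.card : ℝ) ≤ ((L : ℝ) + 1) * (C * X ^ s) := by
        have h6 : F.card ≤ ∑ i ∈ Finset.range (L + 1), (U i).card :=
          Finset.card_biUnion_le.trans (Finset.sum_le_sum fun i _ => Finset.card_image_le)
        have h7 : (F.card : ℝ) ≤ ∑ i ∈ Finset.range (L + 1), ((U i).card : ℝ) := by exact_mod_cast h6
        refine h7.trans ?_
        have h8 : ∀ i ∈ Finset.range (L + 1), ((U i).card : ℝ) ≤ C * X ^ s := by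
          intro i hi
          refine (hU i).trans (mul_le_mul_of_nonneg_left ?_ hC0)
          refine Real.rpow_le_rpow (by positivity) ?_ hs
          refine le_trans ?_ hLX
          exact pow_le_pow_right₀ (by norm_num) (Nat.lt_succ_iff.1 (Finset.mem_range.1 hi))
        refine (Finset.sum_le_sum h8).trans ?_
        rw [Finset.sum_const, Finset.card_range, nsmul_eq_mul]
        push_cast
        exact le_refl _
      have hlog2 : 0 < Real.log 2 := Real.log_pos (by norm_num)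
      have hXε : 1 ≤ X ^ ε := Real.one_le_rpow hX hε.le
      have h6 : (L : ℝ) + 1 ≤ (1 / (ε * Real.log 2) + 1) * X ^ ε := by
        have h7 : (L : ℝ) * Real.log 2 ≤ Real.log X := by
          have := Real.log_le_log (by positivity) hLX
          rwa [Real.log_pow] at this
        have h8 : Real.log X ≤ X ^ ε / ε := Real.log_le_rpow_div (by linarith) hε
        have h9 : (L : ℝ) ≤ 1 / (ε * Real.log 2) * X ^ ε := by
          rw [one_div, mul_comm, ← div_eq_mul_inv, le_div_iff₀ (by positivity)]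
          have := h7.trans h8
          rw [le_div_iff₀ hε] at this
          linarith
        nlinarith
      calc _ ≤ (F.card : ℝ) := h4
        _ ≤ ((L : ℝ) + 1) * (C * X ^ s) := h5
        _ ≤ ((1 / (ε * Real.log 2) + 1) * X ^ ε) * (C * X ^ s) := by
            refine mul_le_mul_of_nonneg_right h6 ?_
            exact mul_nonneg hC0 (Real.rpow_nonneg (by linarith) _)
        _ = C * (1 / (ε * Real.log 2) + 1) * X ^ (s + ε) := by
            rw [Real.rpow_add (by linarith)]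
            ring)
  refine ⟨E, hE1, fun z hz => ?_⟩
  have hfin := hE2 z hz ()
  obtain ⟨i0, hi0⟩ : ∃ i0 : ℕ, ∀ t ∈ {t : M × ℕ | t ∈ {t : M × ℕ | t.1 ∈ U t.2} ∧
      dist t.1 z ≤ ((2 : ℝ) ^ t.2) ^ (-σ1)}, t.2 < i0 := by
    have h1 := hfin.image Prod.snd
    obtain ⟨M, hM⟩ := h1.bddAbove
    exact ⟨M + 1, fun t ht => Nat.lt_succ_of_le (hM ⟨t, ht, rfl⟩)⟩
  refine ⟨i0, fun i hi x hx hall => ?_⟩
  have := hi0 (x, i) ⟨hx, hall⟩
  exact absurd this (not_lt.2 hi)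

/-- values at neighbouring scales -/
theorem val_mono' {B B' T T' : ℝ} (hB : 0 ≤ B) (hBB : B + 1 ≤ B') (hT : 1 ≤ T) (h2 : (2 : ℝ) ^ B ≤ T) (hTT : T ≤ T')
    (hT2 : T' ≤ 2 * T) : T ^ (-B') ≤ T' ^ (-B) := by
  have hT0 : 0 < T := by linarith
  have hT0' : 0 < T' := by linarith
  have h1 : (2 * T) ^ (-B) ≤ T' ^ (-B) := by
    rw [Real.rpow_neg (by linarith), Real.rpow_neg (by linarith)]
    exact inv_anti₀ (Real.rpow_pos_of_pos hT0' _) (Real.rpow_le_rpow hT0'.le hT2 hB)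
  refine le_trans ?_ h1
  have h3 : T ^ (-B') ≤ T ^ (-(B + 1)) := Real.rpow_le_rpow_of_exponent_le hT (by linarith)
  refine h3.trans ?_
  rw [Real.rpow_neg hT0.le, Real.rpow_neg (by linarith)]
  refine inv_anti₀ (Real.rpow_pos_of_pos (by linarith) _) ?_
  rw [Real.mul_rpow (by norm_num) hT0.le, Real.rpow_add hT0, Real.rpow_one, mul_comm]
  exact mul_le_mul_of_nonneg_left h2 (Real.rpow_nonneg hT0.le _)

section

variable {𝕜 : Type} [RCLike 𝕜] {X : Type} [Fintype X] [DecidableEq X]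

/-- the set is contained in few hypersurfaces -/
def CovH (D : ℕ) (m : ℝ) (S : Set (X → 𝕜)) : Prop :=
  ∃ Φ : Finset (MvPolynomial X 𝕜), (Φ.card : ℝ) ≤ m ∧ (∀ P ∈ Φ, P ≠ 0 ∧ P.totalDegree ≤ D) ∧
    ∀ x ∈ S, ∃ P ∈ Φ, MvPolynomial.aeval x P = 0

/-- the conditions on the exceptional sets -/
structure Thin (R : ℝ) (Ex : ℝ → ℝ → Set (X → 𝕜)) : Prop where
  bd : ∀ B T, Ex B T ⊆ Metric.closedBall 0 R
  mono : ∀ B B' T T' : ℝ, 0 ≤ B → B + 1 ≤ B' → 1 ≤ T → (2 : ℝ) ^ B ≤ T → T ≤ T' → T' ≤ 2 * T → Ex B' T ⊆ Ex B T'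
  anti : ∀ B B' T : ℝ, 1 ≤ T → B ≤ B' → Ex B' T ⊆ Ex B T
  cov : ∀ ε : ℝ, 0 < ε → ∃ (D : ℕ) (B C : ℝ), 0 ≤ C ∧ ∀ T : ℝ, 1 ≤ T → CovH D (C * T ^ ε) (Ex B T)

theorem near_cov {w D' R : ℝ} (hw : 0 < w)
    (hD' : ((Module.finrank ℝ 𝕜 * (Fintype.card X - 1) : ℕ) : ℝ) < D') (hR : 1 ≤ R)
    (Ex : ℝ → ℝ → Set (X → 𝕜)) (hEx : Thin R Ex) :
    ∃ (B : ℝ) (E : Set (X → 𝕜)), dimH E ≤ ENNReal.ofReal D' ∧ ∀ z ∉ E, ∃ T0 : ℝ, ∀ T ≥ T0, ∀ p ∈ Ex B T,
      ¬ dist p z ≤ T ^ (-w) := by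
  classical
  have hr0 : (0 : ℝ) ≤ ((Module.finrank ℝ 𝕜 * (Fintype.card X - 1) : ℕ) : ℝ) := Nat.cast_nonneg _
  have hD0 : 0 < D' := lt_of_le_of_lt hr0 hD'
  obtain ⟨s', hs1, hs2⟩ := exists_between hD'
  have hs0 : 0 < s' := lt_of_le_of_lt hr0 hs1
  obtain ⟨σ1, hσ1⟩ : ∃ σ1 : ℝ, σ1 = w * (s' + D') / (2 * D') := ⟨_, rfl⟩
  have hσpos : 0 < σ1 := by rw [hσ1]; positivity
  have hσlt : σ1 < w := by
    rw [hσ1, div_lt_iff₀ (by positivity)]
    nlinarith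
  obtain ⟨ε, hε⟩ : ∃ ε : ℝ, ε = w * (D' - s') / 2 := ⟨_, rfl⟩
  have hε0 : 0 < ε := by
    rw [hε]
    have : 0 < D' - s' := by linarith
    positivity
  have hdim : (ε + w * s') / σ1 = D' := by
    rw [hσ1, hε]
    have : s' + D' ≠ 0 := by positivity
    field_simp
    ring
  obtain ⟨D, B0, C, hC, hcov⟩ := hEx.cov ε hε0
  obtain ⟨C1, hC1, hcz⟩ := cov_zeros 𝕜 X D s' hs1
  obtain ⟨B1, hB1⟩ : ∃ B1 : ℝ, B1 = max B0 0 := ⟨_, rfl⟩
  have hB10 : 0 ≤ B1 := by rw [hB1]; exact le_max_right _ _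
  have hB1B : B0 ≤ B1 := by rw [hB1]; exact le_max_left _ _
  -- the centres at the scale `2 ^ i`
  have hcent : ∀ i : ℕ, ∃ U : Finset (X → 𝕜), (U.card : ℝ) ≤ (C * C1 * R ^ s') * ((2 : ℝ) ^ i) ^ (ε + w * s') ∧
      ∀ p ∈ Ex B1 ((2 : ℝ) ^ i), ∃ c ∈ U, dist p c ≤ ((2 : ℝ) ^ i) ^ (-w) := by
    intro i
    have hi1 : (1 : ℝ) ≤ (2 : ℝ) ^ i := one_le_pow₀ (by norm_num)
    have hi0 : (0 : ℝ) < (2 : ℝ) ^ i := by positivity
    obtain ⟨Φ, h1, h2, h3⟩ := hcov _ hi1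
    have hδ0 : 0 < ((2 : ℝ) ^ i) ^ (-w) := Real.rpow_pos_of_pos hi0 _
    have hδ1 : ((2 : ℝ) ^ i) ^ (-w) ≤ R :=
      (Real.rpow_le_one_of_one_le_of_nonpos hi1 (by linarith)).trans hR
    have h4 : ∀ P ∈ Φ, Cov (Metric.closedBall (0 : X → 𝕜) R ∩ {y | MvPolynomial.aeval y P = 0})
        (((2 : ℝ) ^ i) ^ (-w)) (C1 * (R / ((2 : ℝ) ^ i) ^ (-w)) ^ s') :=
      fun P hP => hcz P (h2 P hP).1 (h2 P hP).2 0 R _ hδ0 hδ1
    choose! F hF1 hF2 using h4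
    refine ⟨Φ.biUnion F, ?_, ?_⟩
    · have h5 : ((Φ.biUnion F).card : ℝ) ≤ ∑ P ∈ Φ, ((F P).card : ℝ) := by
        exact_mod_cast Finset.card_biUnion_le
      refine h5.trans ((Finset.sum_le_sum hF1).trans ?_)
      rw [Finset.sum_const, nsmul_eq_mul]
      have h6 : (R / ((2 : ℝ) ^ i) ^ (-w)) ^ s' = R ^ s' * ((2 : ℝ) ^ i) ^ (w * s') := by
        rw [Real.rpow_neg hi0.le, div_inv_eq_mul, Real.mul_rpow (by linarith) (Real.rpow_nonneg hi0.le _),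
          ← Real.rpow_mul hi0.le]
      rw [h6]
      have h7 : 0 ≤ C1 * (R ^ s' * ((2 : ℝ) ^ i) ^ (w * s')) := by positivity
      calc (Φ.card : ℝ) * (C1 * (R ^ s' * ((2 : ℝ) ^ i) ^ (w * s')))
          ≤ (C * ((2 : ℝ) ^ i) ^ ε) * (C1 * (R ^ s' * ((2 : ℝ) ^ i) ^ (w * s'))) :=
            mul_le_mul_of_nonneg_right h1 h7
        _ = (C * C1 * R ^ s') * ((2 : ℝ) ^ i) ^ (ε + w * s') := by
            rw [Real.rpow_add hi0]
            ring
    · intro p hp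
      obtain ⟨P, hP, hp0⟩ := h3 p (hEx.anti B0 B1 _ hi1 hB1B hp)
      obtain ⟨c, hc, hpc⟩ := hF2 P hP p ⟨hEx.bd _ _ hp, hp0⟩
      exact ⟨c, Finset.mem_biUnion.2 ⟨P, hP, hc⟩, hpc⟩
  choose U hU1 hU2 using hcent
  obtain ⟨E, hE1, hE2⟩ := dyadicM (M := X → 𝕜) (s := ε + w * s') (by positivity) hσpos U hU1
  refine ⟨B1 + 1, E, by rwa [hdim] at hE1, fun z hz => ?_⟩
  obtain ⟨i0, hi0⟩ := hE2 z hz
  refine ⟨max (max 1 ((2 : ℝ) ^ i0)) (max ((2 : ℝ) ^ B1) ((2 : ℝ) ^ ((1 + σ1) / (w - σ1)))), fun T hT p hp hpz => ?_⟩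
  have hT1 : 1 ≤ T := le_trans (le_trans (le_max_left _ _) (le_max_left _ _)) hT
  have hTi : (2 : ℝ) ^ i0 ≤ T := le_trans (le_trans (le_max_right _ _) (le_max_left _ _)) hT
  have hTB : (2 : ℝ) ^ B1 ≤ T := le_trans (le_trans (le_max_left _ _) (le_max_right _ _)) hT
  have hTσ : (2 : ℝ) ^ ((1 + σ1) / (w - σ1)) ≤ T := le_trans (le_trans (le_max_right _ _) (le_max_right _ _)) hT
  have hT0 : 0 < T := by linarith
  obtain ⟨m, hm1, hm2⟩ := exists_nat_pow_near hT1 (one_lt_two : (1 : ℝ) < 2)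
  have hTT : T ≤ (2 : ℝ) ^ (m + 1) := hm2.le
  have hT2 : (2 : ℝ) ^ (m + 1) ≤ 2 * T := by rw [pow_succ]; linarith
  have hi : i0 ≤ m + 1 := by
    by_contra hcon
    rw [not_le] at hcon
    have h1 : (2 : ℝ) ^ (m + 1) < (2 : ℝ) ^ i0 := pow_lt_pow_right₀ (by norm_num) hcon
    linarith
  have hp2 : p ∈ Ex B1 ((2 : ℝ) ^ (m + 1)) :=
    hEx.mono B1 (B1 + 1) T _ hB10 le_rfl hT1 hTB hTT hT2 hp
  obtain ⟨c, hc, hpc⟩ := hU2 (m + 1) p hp2
  refine hi0 (m + 1) hi c hc ?_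
  have hpp : (0 : ℝ) < (2 : ℝ) ^ (m + 1) := by positivity
  have h1 : dist c z ≤ T ^ (-w) + T ^ (-w) := by
    refine (dist_triangle c p z).trans (add_le_add ?_ hpz)
    rw [dist_comm]
    refine hpc.trans ?_
    rw [Real.rpow_neg hpp.le, Real.rpow_neg hT0.le]
    exact inv_anti₀ (Real.rpow_pos_of_pos hT0 _) (Real.rpow_le_rpow hT0.le hTT hw.le)
  refine h1.trans ?_
  have h3 : (2 * T) ^ (-σ1) ≤ ((2 : ℝ) ^ (m + 1)) ^ (-σ1) := by
    rw [Real.rpow_neg (by linarith), Real.rpow_neg hpp.le]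
    exact inv_anti₀ (Real.rpow_pos_of_pos hpp _) (Real.rpow_le_rpow hpp.le hT2 hσpos.le)
  refine le_trans ?_ h3
  have h4 : (2 : ℝ) ^ (1 + σ1) ≤ T ^ (w - σ1) := by
    have h5 : ((2 : ℝ) ^ ((1 + σ1) / (w - σ1))) ^ (w - σ1) ≤ T ^ (w - σ1) :=
      Real.rpow_le_rpow (by positivity) hTσ (by linarith)
    rwa [← Real.rpow_mul (by norm_num), div_mul_cancel₀ _ (by linarith)] at h5
  have h6 : T ^ (-w) * T ^ (w - σ1) = T ^ (-σ1) := by
    rw [← Real.rpow_add hT0]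
    congr 1
    ring
  have h7 : (2 * T) ^ (-σ1) = (2 : ℝ) ^ (-σ1) * T ^ (-σ1) := Real.mul_rpow (by norm_num) hT0.le
  have h8 : (2 : ℝ) ^ (-σ1) * (2 : ℝ) ^ (1 + σ1) = 2 := by
    rw [← Real.rpow_add (by norm_num)]
    norm_num
  have h9 : 0 < (2 : ℝ) ^ (-σ1) := Real.rpow_pos_of_pos (by norm_num) _
  have h10 : 0 < T ^ (-w) := Real.rpow_pos_of_pos hT0 _
  calc T ^ (-w) + T ^ (-w) = ((2 : ℝ) ^ (-σ1) * (2 : ℝ) ^ (1 + σ1)) * T ^ (-w) := by rw [h8]; ring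
    _ ≤ ((2 : ℝ) ^ (-σ1) * T ^ (w - σ1)) * T ^ (-w) := by
        refine mul_le_mul_of_nonneg_right ?_ h10.le
        exact mul_le_mul_of_nonneg_left h4 h9.le
    _ = (2 * T) ^ (-σ1) := by rw [h7, ← h6]; ring

/-- countably many families, all exponents `w > 0`, one exceptional set of dimension at most `n - 1` -/
theorem near_all {J : Type} [Countable J] (R : J → ℝ) (hR : ∀ j, 1 ≤ R j) (Ex : J → ℝ → ℝ → Set (X → 𝕜))
    (hEx : ∀ j, Thin (R j) (Ex j)) :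
    ∃ E : Set (X → 𝕜), dimH E ≤ ((Module.finrank ℝ 𝕜 * (Fintype.card X - 1) : ℕ) : ℝ≥0∞) ∧
      ∀ z ∉ E, ∀ (j : J) (w : ℝ), 0 < w → ∃ B T0 : ℝ, ∀ T ≥ T0, ∀ p ∈ Ex j B T, ¬ dist p z ≤ T ^ (-w) := by
  have h1 : ∀ (j : J) (m l : ℕ), ∃ (B : ℝ) (E : Set (X → 𝕜)),
      dimH E ≤ ENNReal.ofReal (((Module.finrank ℝ 𝕜 * (Fintype.card X - 1) : ℕ) : ℝ) + 1 / ((l : ℝ) + 1)) ∧
      ∀ z ∉ E, ∃ T0 : ℝ, ∀ T ≥ T0, ∀ p ∈ Ex j B T, ¬ dist p z ≤ T ^ (-(1 / ((m : ℝ) + 1))) := by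
    intro j m l
    exact near_cov (by positivity) (by
      have : (0 : ℝ) < 1 / ((l : ℝ) + 1) := by positivity
      linarith) (hR j) (Ex j) (hEx j)
  choose B E hE1 hE2 using h1
  refine ⟨⋃ j, ⋃ m, ⋂ l, E j m l, ?_, ?_⟩
  · rw [dimH_iUnion]
    refine iSup_le fun j => ?_
    rw [dimH_iUnion]
    refine iSup_le fun m => ?_
    have h2 : ∀ l : ℕ, dimH (⋂ l, E j m l) ≤
        ENNReal.ofReal (((Module.finrank ℝ 𝕜 * (Fintype.card X - 1) : ℕ) : ℝ) + 1 / ((l : ℝ) + 1)) :=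
      fun l => (dimH_mono (Set.iInter_subset _ l)).trans (hE1 j m l)
    have h3 : Tendsto (fun l : ℕ =>
        ENNReal.ofReal (((Module.finrank ℝ 𝕜 * (Fintype.card X - 1) : ℕ) : ℝ) + 1 / ((l : ℝ) + 1))) atTop
        (𝓝 (ENNReal.ofReal (((Module.finrank ℝ 𝕜 * (Fintype.card X - 1) : ℕ) : ℝ) + 0))) :=
      (ENNReal.continuous_ofReal.tendsto _).comp
        (tendsto_const_nhds.add tendsto_one_div_add_atTop_nhds_zero_nat)
    rw [add_zero, ENNReal.ofReal_natCast] at h3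
    exact ge_of_tendsto' h3 h2
  · intro z hz j w hw
    obtain ⟨m, hm⟩ := exists_nat_one_div_lt hw
    have h2 : z ∉ ⋂ l, E j m l := fun h => hz (Set.mem_iUnion.2 ⟨j, Set.mem_iUnion.2 ⟨m, h⟩⟩)
    rw [Set.mem_iInter, not_forall] at h2
    obtain ⟨l, hl⟩ := h2
    obtain ⟨T0, hT0⟩ := hE2 j m l z hl
    refine ⟨B j m l, max 1 T0, fun T hT p hp hpz => ?_⟩
    refine hT0 T ((le_max_right _ _).trans hT) p hp (hpz.trans ?_)
    exact Real.rpow_le_rpow_of_exponent_le ((le_max_left _ _).trans hT) (by linarith)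

/-- number fields in `𝕜` are countably many -/
theorem countable_fields' : Set.Countable {K : IntermediateField ℚ 𝕜 | NumberField K} := by
  refine ((Algebraic.countable ℚ 𝕜).image fun α : 𝕜 => IntermediateField.adjoin ℚ {α}).mono ?_
  intro K hK
  have : NumberField K := hK
  have : FiniteDimensional ℚ K := inferInstance
  obtain ⟨α, hα⟩ := @Field.exists_primitive_element ℚ K _ _ K.algebra' (by convert this) (by infer_instance)
  refine ⟨(α : 𝕜), ?_, ?_⟩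
  · have h1 : IsAlgebraic ℚ α := Algebra.IsAlgebraic.isAlgebraic α
    exact h1.algebraMap
  · show IntermediateField.adjoin ℚ {(α : 𝕜)} = K
    rw [← IntermediateField.lift_adjoin_simple, hα, IntermediateField.lift_top]

/-- a compact part of an open set -/
def core (S : Set 𝕜) (q : ℕ) : Set 𝕜 := Metric.closedBall 0 (q : ℝ) ∩ (Metric.thickening (1 / ((q : ℝ) + 1)) Sᶜ)ᶜ

theorem core_compact (S : Set 𝕜) (q : ℕ) : IsCompact (core S q) :=
  (isCompact_closedBall _ _).inter_right Metric.isOpen_thickening.isClosed_compl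

theorem core_sub (S : Set 𝕜) (q : ℕ) : core S q ⊆ S := by
  intro u hu
  by_contra h
  exact hu.2 (Metric.self_subset_thickening (by positivity) _ h)

theorem core_near (S : Set 𝕜) (hS : IsOpen S) (z : 𝕜) (hz : z ∈ S) : ∃ (q : ℕ) (ρ : ℝ), 0 < ρ ∧ ∀ q' ≥ q,
    ∀ u : 𝕜, ‖u - z‖ ≤ ρ → u ∈ core S q' := by
  obtain ⟨ρ, hρ, hb⟩ := Metric.isOpen_iff.1 hS z hz
  obtain ⟨q1, hq1⟩ := exists_nat_one_div_lt (show (0 : ℝ) < ρ / 2 by positivity)
  obtain ⟨q2, hq2⟩ := exists_nat_ge (‖z‖ + ρ / 2)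
  refine ⟨max q1 q2, ρ / 2, by positivity, fun q' hq' u hu => ⟨?_, ?_⟩⟩
  · rw [mem_closedBall_zero_iff]
    have h1 : ‖u‖ ≤ ‖z‖ + ρ / 2 := by
      have : u = z + (u - z) := by ring
      rw [this]
      exact (norm_add_le _ _).trans (add_le_add le_rfl hu)
    refine h1.trans (hq2.trans ?_)
    exact_mod_cast (le_max_right _ _).trans hq'
  · intro h
    rw [Metric.mem_thickening_iff] at h
    obtain ⟨v, hv, huv⟩ := h
    apply hv
    apply hb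
    rw [Metric.mem_ball]
    have h2 : 1 / ((q' : ℝ) + 1) ≤ 1 / ((q1 : ℝ) + 1) := by
      apply one_div_le_one_div_of_le (by positivity)
      have : (q1 : ℝ) ≤ q' := by exact_mod_cast (le_max_left _ _).trans hq'
      linarith
    calc dist v z ≤ dist v u + dist u z := dist_triangle _ _ _
      _ < ρ / 2 + ρ / 2 := by
          refine add_lt_add_of_lt_of_le ?_ (by rw [dist_eq_norm]; exact hu)
          rw [dist_comm]
          linarith
      _ = ρ := by ring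

open Height in
/-- a small relation of degree at most `d` and height at most `T ^ A` at the point `t` -/
def Rel {X Y₀ Yc : Type} {k : Type} [Field k] [NumberField k] (σ : k →+* 𝕜) (f : X → Y₀ → 𝕜 → 𝕜) (ξ : Yc → ℝ)
    (d : ℕ) (A B T : ℝ) (t : X → k) : Prop :=
  ∃ P : MvPolynomial ((X × Y₀) ⊕ Yc) k, P ≠ 0 ∧ (∀ i, P.degreeOf i ≤ d) ∧
    (∀ s, mulHeight₁ (P.coeff s) ≤ T ^ A) ∧
    ‖MvPolynomial.eval₂ σ (Sum.elim (fun c : X × Y₀ => f c.1 c.2 (σ (t c.1))) fun c => ((ξ c : ℝ) : 𝕜)) P‖ ≤ T ^ (-B)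

open Height in
/-- **Main theorem.** All tuples near all points outside of a set of dimension `n - 1` have no small relations. -/
theorem mainK [Nonempty X] (τ₀ : 𝕜 →+* ℂ) (hτ₀ : ∀ a, ‖a‖ = ‖τ₀ a‖) {Y₀ Yc : Type} [Fintype Y₀] [Fintype Yc]
    (f : X → Y₀ → 𝕜 → 𝕜) (ξ : Yc → ℝ) (S : X → Set 𝕜) (hSo : ∀ x, IsOpen (S x)) (hS : ∀ x, IsPreconnected (S x))
    (han : ∀ x y, AnalyticOnNhd 𝕜 (f x y) (S x)) (hind : ∀ x, Pool.Agent.Y771.KF.AIndepS (f x) (S x))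
    (hξ : Pool.Agent.Y124.GoodXi ξ) :
    ∃ E : Set (X → 𝕜), dimH E ≤ ((Module.finrank ℝ 𝕜 * (Fintype.card X - 1) : ℕ) : ℝ≥0∞) ∧
      ∀ z ∉ E, (∀ x, z x ∈ S x) → ∀ (K : IntermediateField ℚ 𝕜) [NumberField K] (d : ℕ) (A w : ℝ), 0 < w →
        ∃ B T0 : ℝ, ∀ T ≥ T0, ∀ t : X → K, (∀ x, mulHeight₁ (t x) ≤ T ∧ ‖(t x : 𝕜) - z x‖ ≤ T ^ (-w)) →
          ¬ Rel (algebraMap K 𝕜) f ξ d A B T t := by
  classical
  let J : Type := {K : IntermediateField ℚ 𝕜 // NumberField K} × (ℕ × ℕ × ℕ)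
  have : Countable {K : IntermediateField ℚ 𝕜 // NumberField K} := countable_fields'.to_subtype
  let Ex : J → ℝ → ℝ → Set (X → 𝕜) := fun j B T =>
    haveI : NumberField j.1.1 := j.1.2
    (fun (t : X → j.1.1) (x : X) => (t x : 𝕜)) ''
      (Pool.Agent.Y771.KF.ExcK (algebraMap j.1.1 𝕜) f ξ (fun x => core (S x) j.2.2.2) j.2.1 (j.2.2.1 : ℝ) B T)
  have hThin : ∀ j : J, Thin (max 1 (j.2.2.2 : ℝ)) (Ex j) := by
    intro j
    have : NumberField j.1.1 := j.1.2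
    refine ⟨?_, ?_, ?_, ?_⟩
    · rintro B T _ ⟨t, ht, rfl⟩
      rw [mem_closedBall_zero_iff, pi_norm_le_iff_of_nonneg (by positivity)]
      intro x
      have h1 := (ht.1 x).1.1
      rw [mem_closedBall_zero_iff] at h1
      exact h1.trans (le_max_right _ _)
    · rintro B B' T T' hB hBB hT h2T hTT hT2 _ ⟨t, ⟨ht, P, hP, hd, hc, hv⟩, rfl⟩
      refine ⟨t, ⟨fun x => ⟨(ht x).1, (ht x).2.trans hTT⟩, P, hP, hd, fun s => (hc s).trans ?_,
        hv.trans (val_mono' hB hBB hT h2T hTT hT2)⟩, rfl⟩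
      exact Real.rpow_le_rpow (by linarith) hTT (Nat.cast_nonneg _)
    · rintro B B' T hT hBB _ ⟨t, ⟨ht, P, hP, hd, hc, hv⟩, rfl⟩
      exact ⟨t, ⟨ht, P, hP, hd, hc, hv.trans (Real.rpow_le_rpow_of_exponent_le hT (by linarith))⟩, rfl⟩
    · intro ε hε
      obtain ⟨D, B, C, hC, h⟩ := Pool.Agent.Y771.KF.stdK (k := j.1.1) (algebraMap j.1.1 𝕜)
        (τ₀.comp (algebraMap j.1.1 𝕜)) (fun a => hτ₀ _) f ξ S (fun x => core (S x) j.2.2.2) hS
        (fun x => core_sub _ _) (fun x => core_compact _ _) han hind hξ j.2.1 (j.2.2.1 : ℝ) ε hε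
      refine ⟨D, B, C, hC, fun T hT => ?_⟩
      obtain ⟨Φ, h1, h2, h3⟩ := h T hT
      have hinj : Function.Injective (algebraMap j.1.1 𝕜) := (algebraMap j.1.1 𝕜).injective
      refine ⟨Φ.image (MvPolynomial.map (algebraMap j.1.1 𝕜)), ?_, ?_, ?_⟩
      · have h4 : ((Φ.image (MvPolynomial.map (algebraMap j.1.1 𝕜))).card : ℝ) ≤ (⌊C * T ^ ε⌋₊ : ℝ) := by
          exact_mod_cast Finset.card_image_le.trans h1
        refine h4.trans (Nat.floor_le ?_)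
        exact mul_nonneg hC (Real.rpow_nonneg (by linarith) _)
      · intro P hP
        obtain ⟨Q, hQ, rfl⟩ := Finset.mem_image.1 hP
        refine ⟨?_, ?_⟩
        · intro h0
          exact (h2 Q hQ).1 (MvPolynomial.map_injective _ hinj (by rw [h0, map_zero]))
        · refine le_trans ?_ (h2 Q hQ).2
          exact Finset.sup_mono (MvPolynomial.support_map_subset _ _)
      · rintro _ ⟨t, ht, rfl⟩
        obtain ⟨Q, hQ, h0⟩ := h3 t ht
        refine ⟨_, Finset.mem_image_of_mem _ hQ, ?_⟩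
        rw [MvPolynomial.aeval_def, MvPolynomial.eval₂_map]
        have h5 : MvPolynomial.eval₂ ((algebraMap 𝕜 𝕜).comp (algebraMap j.1.1 𝕜)) (fun x => (t x : 𝕜)) Q =
            algebraMap j.1.1 𝕜 (MvPolynomial.eval t Q) := by
          rw [← MvPolynomial.eval₂_id, MvPolynomial.hom_eval₂]
          rfl
        rw [h5, h0, map_zero]
  obtain ⟨E, hE1, hE2⟩ := near_all (fun j : J => max 1 (j.2.2.2 : ℝ)) (fun j => le_max_left _ _) Ex hThin
  refine ⟨E, hE1, fun z hz hzS K hK d A w hw => ?_⟩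
  choose q ρ hρ hq using fun x => core_near (S x) (hSo x) (z x) (hzS x)
  obtain ⟨Q, hQ⟩ := (Finset.image q Finset.univ).exists_le
  obtain ⟨M, hM⟩ := (Finset.image (fun x => (ρ x)⁻¹) Finset.univ).exists_le
  obtain ⟨B, T0, hB⟩ := hE2 z hz (⟨K, hK⟩, d, ⌈A⌉₊, Q) w hw
  refine ⟨B, max (max 1 T0) ((max M 1) ^ (1 / w)), fun T hT t ht hrel => ?_⟩
  have hT1 : 1 ≤ T := le_trans (le_trans (le_max_left _ _) (le_max_left _ _)) hT
  have hTT0 : T0 ≤ T := le_trans (le_trans (le_max_right _ _) (le_max_left _ _)) hT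
  have hTM : (max M 1) ^ (1 / w) ≤ T := le_trans (le_max_right _ _) hT
  have hTpos : 0 < T := by linarith
  have hM1 : (0 : ℝ) < max M 1 := lt_max_of_lt_right one_pos
  have hTw : T ^ (-w) ≤ (max M 1)⁻¹ := by
    rw [Real.rpow_neg hTpos.le]
    refine inv_anti₀ hM1 ?_
    have h1 := Real.rpow_le_rpow (Real.rpow_nonneg hM1.le _) hTM hw.le
    rwa [← Real.rpow_mul hM1.le, one_div_mul_cancel hw.ne', Real.rpow_one] at h1
  refine hB T hTT0 (fun x => (t x : 𝕜)) ⟨t, ⟨fun x => ⟨?_, (ht x).1⟩, ?_⟩, rfl⟩ ?_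
  · refine hq x Q (hQ _ (Finset.mem_image_of_mem _ (Finset.mem_univ x))) _ ((ht x).2.trans (hTw.trans ?_))
    have h2 := hM _ (Finset.mem_image_of_mem _ (Finset.mem_univ x))
    rw [inv_le_comm₀ hM1 (hρ x)]
    exact h2.trans (le_max_left _ _)
  · obtain ⟨P, hP, hd, hc, hv⟩ := hrel
    refine ⟨P, hP, hd, fun s => (hc s).trans ?_, hv⟩
    exact Real.rpow_le_rpow_of_exponent_le hT1 (Nat.le_ceil A)
  · rw [dist_pi_le_iff (Real.rpow_nonneg hTpos.le _)]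
    intro x
    rw [dist_eq_norm]
    exact (ht x).2

end

end Pool.Agent.Helper264.NT
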