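import Pool.Agent.Helper264.NT.NearK

/-! Renaming of variables and real numbers as complex numbers, for the near-point theorem. -/

set_option autoImplicit false
set_option linter.unusedSectionVars false

namespace Pool.Agent.Helper264.NT

open Filter Topology MeasureTheory Set Height
open scoped ENNReal NNReal

variable {𝕜 : Type} [RCLike 𝕜] {X Y₀ Yc W : Type}

/-- all values of nonzero polynomials over `k` of degree at most `d` and height at most `T ^ A` at the numbers `v` are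
larger than `T ^ (-B)` -/
def NoRelK {k : Type} [Field k] [NumberField k] {R : Type*} [NormedCommRing R] (σ : k →+* R) (v : W → R) (d : ℕ)
    (A B T : ℝ) : Prop :=
  ∀ P : MvPolynomial W k, P ≠ 0 → (∀ i, P.degreeOf i ≤ d) → (∀ s, mulHeight₁ (P.coeff s) ≤ T ^ A) →
    T ^ (-B) < ‖MvPolynomial.eval₂ σ v P‖

theorem norel_rename {k : Type} [Field k] [NumberField k] (e : W ≃ (X × Y₀) ⊕ Yc) (σ : k →+* 𝕜)
    (f : X → Y₀ → 𝕜 → 𝕜) (ξ : Yc → ℝ) (d : ℕ) (A B T : ℝ) (t : X → k) (h : ¬ Rel σ f ξ d A B T t)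
    (ht : ∀ x, mulHeight₁ (t x) ≤ T) (v : W → 𝕜)
    (hv : ∀ w, v w = Sum.elim (fun c : X × Y₀ => f c.1 c.2 (σ (t c.1))) (fun c => ((ξ c : ℝ) : 𝕜)) (e w)) :
    NoRelK σ v d A B T := by
  intro P hP hd hc
  by_contra hcon
  rw [not_lt] at hcon
  obtain ⟨-, hr⟩ := Pool.Agent.Y771.KF.ExcK_of_rename e σ f ξ (fun _ => Set.univ) d A B T t
    (fun x => ⟨Set.mem_univ _, ht x⟩) v hv P hP hd hc hcon
  exact h hr

theorem norel_real {k : Type} [Field k] [NumberField k] (σ : k →+* ℝ) (v : W → ℝ) (v' : W → ℂ)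
    (hv : ∀ w, v' w = ((v w : ℝ) : ℂ)) (d : ℕ) (A B T : ℝ) (h : NoRelK σ v d A B T) :
    NoRelK (Complex.ofRealHom.comp σ) v' d A B T := by
  intro P hP hd hc
  have h1 : MvPolynomial.eval₂ (Complex.ofRealHom.comp σ) v' P = ((MvPolynomial.eval₂ σ v P : ℝ) : ℂ) := by
    have h2 : v' = fun w => Complex.ofRealHom (v w) := funext hv
    rw [h2]
    exact (MvPolynomial.eval₂_comp_left Complex.ofRealHom σ v P).symm
  rw [h1, Complex.norm_real]
  exact h P hP hd hc

end Pool.Agent.Helper264.NT
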