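import Pool.Agent.Helper264.NT.NearK
import Pool.Agent.H107.Per
import Pool.Agent.V11273.PV.G10

/-! Exceptional fibres of families near points: all exponents `w > 0`, bases of any dimension. -/

set_option autoImplicit false
set_option linter.unusedSectionVars false

namespace Pool.Agent.Helper264.NT

open Filter Topology MeasureTheory Set NumberField
open scoped ENNReal NNReal
open Pool.Agent.V11273.PV Pool.Agent.H107.Per Pool.Agent.Y890.MV

section

variable {X : Type} [Fintype X] [DecidableEq X] {σ : Type}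

/-- covers by hypersurfaces of bounded degree, for fixed parameters -/
def FixCov (U : Set (X → ℂ)) (f : σ → (X → ℂ) → ℂ) (Bad : (X → ℂ) → MvPolynomial σ ℂ → Prop) : Prop :=
  ∀ (k m : ℕ) (ε : ℝ), 0 < k → 0 < ε → ∃ (D : ℕ) (C T₀ : ℝ), 0 ≤ C ∧ 2 ≤ T₀ ∧
    ∀ (K : Type) [Field K] [NumberField K], Module.finrank ℚ K ≤ m → ∀ (io : K →+* ℂ) (ξ : Fin k → ℂ) (T : ℝ),
      T₀ ≤ T → Pool.Agent.Y124.Cov D ⌊C * T ^ ε⌋₊ ((fun (s : X → K) i => io (s i)) '' ExcB U f Bad K io k ξ T)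

/-- the real or imaginary part of a polynomial vanishes at the real zeros -/
theorem real_part (P : MvPolynomial X ℂ) (hP : P ≠ 0) : ∃ Q : MvPolynomial X ℝ, Q ≠ 0 ∧
    Q.totalDegree ≤ P.totalDegree ∧ ∀ x : X → ℝ, MvPolynomial.eval (fun i => Complex.ofRealHom (x i)) P = 0 →
      MvPolynomial.aeval x Q = 0 := by
  classical
  have key : ∀ φ : ℂ →ₗ[ℝ] ℝ, (∃ e, φ (P.coeff e) ≠ 0) → ∃ Q : MvPolynomial X ℝ, Q ≠ 0 ∧
      Q.totalDegree ≤ P.totalDegree ∧ ∀ x : X → ℝ, MvPolynomial.eval (fun i => Complex.ofRealHom (x i)) P = 0 →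
        MvPolynomial.aeval x Q = 0 := by
    rintro φ ⟨e0, he0⟩
    set Q : MvPolynomial X ℝ := ∑ e ∈ P.support, MvPolynomial.monomial e (φ (P.coeff e)) with hQ
    have hcoeff : ∀ e, Q.coeff e = φ (P.coeff e) := by
      intro e
      rw [hQ, MvPolynomial.coeff_sum]
      simp only [MvPolynomial.coeff_monomial]
      rw [Finset.sum_ite_eq' P.support e]
      split_ifs with h
      · rfl
      · rw [MvPolynomial.notMem_support_iff.1 h, map_zero]
    refine ⟨Q, ?_, ?_, ?_⟩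
    · intro h
      apply he0
      rw [← hcoeff, h, MvPolynomial.coeff_zero]
    · refine Finset.sup_mono ?_
      intro e he
      rw [MvPolynomial.mem_support_iff, hcoeff] at he
      rw [MvPolynomial.mem_support_iff]
      intro h
      exact he (by rw [h, map_zero])
    · intro x hx
      have h1 : (MvPolynomial.aeval x Q : ℝ) = φ (MvPolynomial.eval (fun i => Complex.ofRealHom (x i)) P) := by
        rw [hQ, map_sum, MvPolynomial.eval_eq', map_sum]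
        refine Finset.sum_congr rfl fun e _ => ?_
        rw [MvPolynomial.aeval_monomial, Finsupp.prod_fintype _ _ (fun i => pow_zero _)]
        have h2 : (∏ i, Complex.ofRealHom (x i) ^ e i : ℂ) = ((∏ i, x i ^ e i : ℝ) : ℂ) := by
          push_cast
          rfl
        rw [h2, mul_comm (MvPolynomial.coeff e P), ← Complex.real_smul, map_smul, smul_eq_mul, mul_comm]
        rfl
      rw [h1, hx, map_zero]
  obtain ⟨e, he⟩ := MvPolynomial.ne_zero_iff.1 hP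
  by_cases hre : (P.coeff e).re = 0
  · refine key Complex.imLm ⟨e, fun h => he ?_⟩
    exact Complex.ext hre h
  · exact key Complex.reLm ⟨e, hre⟩

/-- **The near-point theorem for fibres.** -/
theorem near_fix {𝕜 : Type} [RCLike 𝕜] (τ₀ : 𝕜 →+* ℂ) (hτ₀ : ∀ a, ‖a‖ = ‖τ₀ a‖)
    (hQ : ∀ P : MvPolynomial X ℂ, P ≠ 0 → ∃ Q : MvPolynomial X 𝕜, Q ≠ 0 ∧
      Q.totalDegree ≤ P.totalDegree ∧ ∀ x : X → 𝕜, MvPolynomial.eval (fun i => τ₀ (x i)) P = 0 →
        MvPolynomial.aeval x Q = 0)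
    {U : Set (X → ℂ)} {f : σ → (X → ℂ) → ℂ} {Bad : (X → ℂ) → MvPolynomial σ ℂ → Prop}
    (hUo : IsOpen U) (hE : FixCov U f Bad) (ξ : ℕ → ℂ) :
    ∃ E : Set (X → 𝕜), dimH E ≤ ((Module.finrank ℝ 𝕜 * (Fintype.card X - 1) : ℕ) : ℝ≥0∞) ∧
      ∀ z ∉ E, (fun i => τ₀ (z i)) ∈ U → ∀ (K : IntermediateField ℚ 𝕜) [NumberField K] (w : ℝ) (k : ℕ), 0 < w →
        ∃ T₁ : ℝ, ∀ T : ℝ, T₁ ≤ T → ∀ s : X → K, (∀ i, Y120.HtLe K T (s i)) → (∀ i, ‖(s i : 𝕜) - z i‖ ≤ T ^ (-w)) →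
          ∀ P : MvPolynomial σ ℂ, Small K (τ₀.comp (algebraMap K 𝕜)) k (res ξ k) T P →
            MvPolynomial.eval (fun y => f y fun j => τ₀ (s j)) P = 0 → ¬ Bad (fun j => τ₀ (s j)) P := by
  classical
  let J : Type := {K : IntermediateField ℚ 𝕜 // NumberField K} × ℕ
  have : Countable {K : IntermediateField ℚ 𝕜 // NumberField K} := countable_fields'.to_subtype
  let Ex : J → ℝ → ℝ → Set (X → 𝕜) := fun j _ T =>
    haveI : NumberField j.1.1 := j.1.2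
    {p | 1 ≤ T ∧ ∃ s ∈ ExcB U f Bad j.1.1 (τ₀.comp (algebraMap j.1.1 𝕜)) (j.2 + 1) (res ξ (j.2 + 1)) T,
      p = fun i => (s i : 𝕜)}
  have hThin : ∀ j : J, Thin ((j.2 : ℝ) + 1) (Ex j) := by
    intro j
    have : NumberField j.1.1 := j.1.2
    refine ⟨?_, ?_, ?_, ?_⟩
    · rintro B T _ ⟨_, s, hs, rfl⟩
      rw [mem_closedBall_zero_iff, pi_norm_le_iff_of_nonneg (by positivity)]
      intro x
      have h1 : ‖(fun i => (τ₀.comp (algebraMap j.1.1 𝕜)) (s i))‖ ≤ ((j.2 + 1 : ℕ) : ℝ) := hs.2.1.1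
      rw [hτ₀]
      refine (norm_le_pi_norm (fun i => (τ₀.comp (algebraMap j.1.1 𝕜)) (s i)) x).trans (h1.trans ?_)
      push_cast
      exact le_rfl
    · rintro B B' T T' hB hBB hT h2T hTT hT2 _ ⟨_, s, hs, rfl⟩
      exact ⟨hT.trans hTT, s, excB_mono (Nat.succ_pos _) le_rfl ξ hT hTT hs, rfl⟩
    · rintro B B' T hT hBB _ ⟨h1, s, hs, rfl⟩
      exact ⟨h1, s, hs, rfl⟩
    · intro ε hε
      obtain ⟨D, C, T₀, hC, hT₀, h⟩ := hE (j.2 + 1) (Module.finrank ℚ j.1.1) ε (Nat.succ_pos _) hε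
      refine ⟨D, 0, C * T₀ ^ ε, by positivity, fun T hT => ?_⟩
      have hTm : T₀ ≤ max T₀ T := le_max_left _ _
      obtain ⟨Φ, h1, h2, h3⟩ := h j.1.1 le_rfl (τ₀.comp (algebraMap j.1.1 𝕜)) (res ξ (j.2 + 1)) (max T₀ T) hTm
      choose! q hq1 hq2 hq3 using hQ
      refine ⟨Φ.image q, ?_, ?_, ?_⟩
      · have h4 : ((Φ.image q).card : ℝ) ≤ (⌊C * (max T₀ T) ^ ε⌋₊ : ℝ) := by
          exact_mod_cast Finset.card_image_le.trans h1
        refine h4.trans ((Nat.floor_le (by positivity)).trans ?_)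
        rw [mul_assoc]
        refine mul_le_mul_of_nonneg_left ?_ hC
        have h5 : max T₀ T ≤ T₀ * T := by
          refine max_le ?_ ?_
          · nlinarith
          · nlinarith
        calc (max T₀ T) ^ ε ≤ (T₀ * T) ^ ε := Real.rpow_le_rpow (by positivity) h5 hε.le
          _ = T₀ ^ ε * T ^ ε := Real.mul_rpow (by linarith) (by linarith)
      · intro P hP
        obtain ⟨P', hP', rfl⟩ := Finset.mem_image.1 hP
        exact ⟨hq1 P' (h2 P' hP').1, (hq2 P' (h2 P' hP').1).trans (h2 P' hP').2⟩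
      · rintro _ ⟨_, s, hs, rfl⟩
        have h4 := excB_mono (Nat.succ_pos _) le_rfl ξ hT (le_max_right T₀ T) hs
        obtain ⟨P, hP, hP0⟩ := h3 _ ⟨s, h4, rfl⟩
        exact ⟨q P, Finset.mem_image_of_mem _ hP, hq3 P (h2 P hP).1 _ hP0⟩
  obtain ⟨E, hE1, hE2⟩ := near_all (fun j : J => (j.2 : ℝ) + 1)
    (fun j => by linarith [Nat.cast_nonneg (α := ℝ) j.2]) Ex hThin
  refine ⟨E, hE1, fun z hz hzU K hK w k hw => ?_⟩
  -- a compact neighbourhood of `z`
  obtain ⟨δ, hδ, hball⟩ := Metric.isOpen_iff.1 hUo _ hzU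
  obtain ⟨k₀, hk₀⟩ := exists_nat_gt (max (2 / δ) (‖(fun i => τ₀ (z i))‖ + 1))
  set k' : ℕ := max k k₀ with hk'
  have hk₀1 : (1 : ℝ) < k₀ := by
    have := (le_max_right (2 / δ) (‖(fun i => τ₀ (z i))‖ + 1)).trans_lt hk₀
    have := norm_nonneg (fun i => τ₀ (z i))
    linarith
  have hk'0 : (k₀ : ℝ) ≤ k' := by exact_mod_cast le_max_right _ _
  have hk'pos : (0 : ℝ) < k' := by linarith
  have hk'pos' : 0 < k' := by exact_mod_cast hk'pos
  obtain ⟨B, T0, hB⟩ := hE2 z hz (⟨K, hK⟩, k') w hw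
  have hlim1 : Tendsto (fun T : ℝ => T ^ (-w)) atTop (𝓝 0) := tendsto_rpow_neg_atTop (by linarith)
  obtain ⟨T₂, hT₂⟩ := Filter.eventually_atTop.1
    (hlim1.eventually (ge_mem_nhds (show (0 : ℝ) < 1 / k' by positivity)))
  refine ⟨max (max T₂ T0) 1, fun T hT s hs hsz P hP hzero hbad => ?_⟩
  have hTT₂ : T₂ ≤ T := ((le_max_left _ _).trans (le_max_left _ _)).trans hT
  have hTT0 : T0 ≤ T := ((le_max_right _ _).trans (le_max_left _ _)).trans hT
  have hT1 : 1 ≤ T := (le_max_right _ _).trans hT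
  have hT0 : 0 < T := by linarith
  have hnear := hT₂ T hTT₂
  have hsz' : ‖(fun i => (τ₀.comp (algebraMap K 𝕜)) (s i)) - fun i => τ₀ (z i)‖ ≤ 1 / k' := by
    rw [pi_norm_le_iff_of_nonneg (by positivity)]
    intro i
    rw [Pi.sub_apply]
    change ‖τ₀ (s i : 𝕜) - τ₀ (z i)‖ ≤ _
    rw [← map_sub, ← hτ₀]
    exact (hsz i).trans hnear
  have hinner : (fun i => (τ₀.comp (algebraMap K 𝕜)) (s i)) ∈ InnerM U k' := by
    refine ⟨?_, ?_⟩
    · have h1 : ‖(fun i => (τ₀.comp (algebraMap K 𝕜)) (s i))‖ ≤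
          ‖(fun i => (τ₀.comp (algebraMap K 𝕜)) (s i)) - fun i => τ₀ (z i)‖ + ‖(fun i => τ₀ (z i))‖ := by
        have := norm_add_le ((fun i => (τ₀.comp (algebraMap K 𝕜)) (s i)) - fun i => τ₀ (z i)) (fun i => τ₀ (z i))
        rwa [sub_add_cancel] at this
      have hk'' : 1 / (k' : ℝ) ≤ 1 := by
        rw [div_le_one hk'pos]
        linarith
      have h2 := (le_max_right (2 / δ) (‖(fun i => τ₀ (z i))‖ + 1)).trans_lt hk₀
      linarith
    · refine Set.Subset.trans (fun y hy => ?_) hball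
      rw [Metric.mem_ball] at hy ⊢
      have h1 := dist_triangle y (fun i => (τ₀.comp (algebraMap K 𝕜)) (s i)) (fun i => τ₀ (z i))
      have h2 : dist (fun i => (τ₀.comp (algebraMap K 𝕜)) (s i)) (fun i => τ₀ (z i)) ≤ 1 / k' := by
        rw [dist_eq_norm]
        exact hsz'
      have h3 := (le_max_left (2 / δ) (‖(fun i => τ₀ (z i))‖ + 1)).trans_lt hk₀
      have h4 : 2 / δ < k' := h3.trans_le hk'0
      have h5 : 2 / (k' : ℝ) < δ := by
        rw [div_lt_iff₀ hδ] at h4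
        rw [div_lt_iff₀ hk'pos]
        linarith
      have h6 : (k' : ℝ)⁻¹ = 1 / k' := (one_div _).symm
      have h7 : 2 / (k' : ℝ) = 1 / k' + 1 / k' := by ring
      linarith
  refine hB T hTT0 (fun i => (s i : 𝕜)) ⟨hT1, s, ?_, rfl⟩ ?_
  · have h1 : s ∈ ExcB U f Bad K (τ₀.comp (algebraMap K 𝕜)) k' (res ξ k') T :=
      ⟨hs, hinner, P, small_mono (le_max_left _ _) ξ hT1 le_rfl hP, hzero, hbad⟩
    exact excB_mono hk'pos' (Nat.le_succ k') ξ hT1 le_rfl h1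
  · rw [dist_pi_le_iff (Real.rpow_nonneg hT0.le _)]
    intro i
    rw [dist_eq_norm]
    exact hsz i

end

section

variable {κ : Type} [Fintype κ] [DecidableEq κ] {X ι : κ → Type} [∀ j, Fintype (X j)] [∀ j, DecidableEq (X j)]
  [∀ j, Fintype (ι j)] [∀ j, DecidableEq (ι j)]
  {U : ∀ j, Set (X j → ℂ)} {Y : ∀ j, (X j → ℂ) → Matrix (ι j) (ι j) ℂ}
  {V : κ → Type} [∀ j, Fintype (V j)] [∀ j, DecidableEq (V j)]

/-- covers for `main3` -/
theorem fix3 [Nonempty (Σ j, X j)] (hU : ∀ j, IsPreconnected (U j)) (hUo : ∀ j, IsOpen (U j))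
    (hne : ∀ j, (U j).Nonempty) (hY : ∀ j a b, AnalyticOnNhd ℂ (fun x => Y j x a b) (U j))
    (hdet : ∀ j, ∀ x ∈ U j, (Y j x).det ≠ 0) {c : ∀ j, MvPolynomial (X j) ℂ} (hc0 : ∀ j, c j ≠ 0)
    {B : ∀ j, X j → Matrix (ι j) (ι j) (MvPolynomial (X j) ℂ)} (hc : ∀ j, Connection (U j) (Y j) (c j) (B j)) :
    FixCov (UU U) (fE Y) (Bad3 U Y) := by
  classical
  intro k m ε hk hε
  obtain ⟨D, C, T₀, hC, hT₀, H⟩ := excI_cov (UU_preconn hU) (UU_open hUo) (UU_ne hne) (YY_an hY) (YY_det hdet)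
    (cc_ne hc0) (product_connection hY hc) (InnerM (UU U) k)
    (innerM_compact _ _) (innerM_sub _ hk) k (Fin k) m (k : ℝ) ε hε
  refine ⟨D, C, T₀, hC, hT₀, fun K _ _ hK io ξ T hT => (H K hK io ξ T hT).mono le_rfl le_rfl (Set.image_mono ?_)⟩
  have hT0 : 0 ≤ T := by linarith
  refine Set.Subset.trans ?_ (excC_sub (U := UU U) (Y := YY Y) io ξ (T := T))
  rintro s ⟨hs1, hs2, P, hP, hzero, w, hw, hwne⟩
  let e : (Σ j, ι j × ι j) → (Σ j, ι j) × (Σ j, ι j) := fun s => (⟨s.1, s.2.1⟩, ⟨s.1, s.2.2⟩)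
  have he : Function.Injective e := by
    rintro ⟨j, a, b⟩ ⟨j', a', b'⟩ h
    simp only [e, Prod.mk.injEq, Sigma.mk.injEq] at h
    obtain ⟨⟨rfl, ha⟩, ⟨_, hb⟩⟩ := h
    rw [eq_of_heq ha, eq_of_heq hb]
  refine ⟨hs1, hs2, MvPolynomial.rename e P, small_rename hT0 hP he, ?_, bd w, idComp_bd hw, ?_⟩
  · rw [MvPolynomial.eval_rename, ← hzero]
    congr 2
    funext s'
    exact YY_eq _ s'.1 s'.2.1 s'.2.2
  · rw [MvPolynomial.eval_rename]
    intro h0
    apply hwne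
    rw [← h0]
    congr 2
    funext s'
    have h2 : (((bd w : GL (Σ j, ι j) ℂ) : Matrix (Σ j, ι j) (Σ j, ι j) ℂ) * YY Y fun j => io (s j)) =
        Matrix.blockDiagonal' (fun j => (w j : Matrix (ι j) (ι j) ℂ) * Y j (pr (fun j => io (s j)) j)) := by
      rw [bd_val]
      unfold YY
      rw [← Matrix.blockDiagonal'_mul]
    rw [Function.comp_apply, h2]
    exact (Matrix.blockDiagonal'_apply_eq
      (fun j => (w j : Matrix (ι j) (ι j) ℂ) * Y j (pr (fun j => io (s j)) j)) s'.1 s'.2.1 s'.2.2).symm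

/-- covers for independent functions of separate variables -/
theorem fix_indep [Nonempty (Σ j, X j)] (hU : ∀ j, IsPreconnected (U j)) (hUo : ∀ j, IsOpen (U j))
    (hne : ∀ j, (U j).Nonempty) (hY : ∀ j a b, AnalyticOnNhd ℂ (fun x => Y j x a b) (U j))
    {e : ∀ j, V j → ι j × ι j} (hV : ∀ j, Indep (U j) (Y j) (e j)) :
    FixCov (UU U) (fV Y e) (fun _ P => P ≠ 0) := by
  classical
  have hfan : ∀ s, AnalyticOnNhd ℂ (fV Y e s) (UU U) := fun s => fE_an hY ⟨s.1, e s.1 s.2⟩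
  obtain ⟨L, _, _, _, F, hz, hfrac⟩ := exists_fieldM (UU_preconn hU) (UU_open hUo) (UU_ne hne) hfan
  have hind : AlgebraicIndependent (MvPolynomial (Σ j, X j) ℂ) (F ∘ id) := by
    rw [algebraicIndependent_iff]
    intro p hp
    exact indep_prod hV p ((hz p).1 hp)
  have hloc : ∀ t ∈ UU U, LocIndM (fV Y e) t := fun t ht => locIndM_of (UU_preconn hU) hfan F hz id hind t ht
  intro k m ε hk hε
  -- the generic polynomial
  let Λ := (Σ j, V j) → Fin (k + 1)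
  let 𝒢 : MvPolynomial (Σ j, V j) (MvPolynomial Λ (MvPolynomial (Σ j, X j) ℂ)) :=
    ∑ l : Λ, MvPolynomial.C (MvPolynomial.X l) * ∏ v, MvPolynomial.X v ^ (l v : ℕ)
  have hspec : ∀ (t : (Σ j, X j) → ℂ) (P : Λ → ℂ), spec 𝒢 t P =
      ∑ l : Λ, MvPolynomial.C (P l) * ∏ v, MvPolynomial.X v ^ (l v : ℕ) := by
    intro t P
    simp only [spec, 𝒢, map_sum, map_mul, map_prod, map_pow, MvPolynomial.map_C, MvPolynomial.map_X,
      MvPolynomial.eval₂Hom_X']
  obtain ⟨D, C, T₀, hC, hT₀, H⟩ := covG (fV Y e) (InnerM (UU U) k) (innerM_compact _ _)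
    (fun i t ht => hfan i t (innerM_sub _ hk ht)) (fun t ht => hloc t (innerM_sub _ hk ht))
    𝒢 (Fin k) m (k : ℝ) ε hε
  refine ⟨D, C, T₀, hC, hT₀, fun K _ _ hK io ξ T hT => (H K hK io ξ T hT).mono le_rfl le_rfl (Set.image_mono ?_)⟩
  rintro s ⟨hs1, hs2, P, ⟨hdeg, hcoef⟩, hzero, hne'⟩
  choose c hc hc' using hcoef
  have hP : spec 𝒢 (fun i => io (s i)) (fun l => ∑ i, ξ i *
      io (c (Finsupp.equivFunOnFinite.symm fun y => (l y : ℕ)) i : K)) = P := by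
    rw [hspec]
    refine MvPolynomial.funext fun w => ?_
    rw [← sum_exp hdeg w]
    simp only [map_sum, map_mul, map_prod, map_pow, MvPolynomial.eval_C, MvPolynomial.eval_X]
    refine Finset.sum_congr rfl fun l _ => ?_
    rw [hc']
  refine ⟨hs1, hs2, fun l i => c (Finsupp.equivFunOnFinite.symm fun y => (l y : ℕ)) i, fun l i φ => hc _ _ φ, ?_, ?_⟩
  · rw [hP]
    exact hne'
  · rw [hP]
    exact hzero

/-- covers for `main_dim` -/
theorem fix_dim [Nonempty (Σ j, X j)] (hU : ∀ j, IsPreconnected (U j)) (hUo : ∀ j, IsOpen (U j))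
    (hne : ∀ j, (U j).Nonempty) (hY : ∀ j a b, AnalyticOnNhd ℂ (fun x => Y j x a b) (U j))
    (hdet : ∀ j, ∀ x ∈ U j, (Y j x).det ≠ 0) {c : ∀ j, MvPolynomial (X j) ℂ} (hc0 : ∀ j, c j ≠ 0)
    {B : ∀ j, X j → Matrix (ι j) (ι j) (MvPolynomial (X j) ℂ)} (hc : ∀ j, Connection (U j) (Y j) (c j) (B j)) :
    ∃ V : ∀ j, Finset (ι j × ι j), (∀ j, (V j).card = gdim (Gal (U j) (Y j))) ∧
      FixCov (UU U) (fV Y (V := fun j => V j) fun _ v => v.1) (fun _ P => P ≠ 0) := by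
  classical
  choose V' hV'c hV' using fun j => gdim_exists (Gal (U j) (Y j))
  choose V hVc hV using fun j => exists_indep (hU j) (hUo j) (hne j) (hY j) (hdet j) (hc0 j) (hc j) (V' j) (hV' j)
  exact ⟨V, fun j => (hVc j).trans (hV'c j), fix_indep (V := fun j => V j) (e := fun _ v => v.1) hU hUo hne hY hV⟩

end

end Pool.Agent.Helper264.NT
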