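import Pool.Agent.Helper264.NT.NearPV
import Pool.Agent.V11273.PV.G14

/-! Near-point theorems for independent analytic functions of several variables. -/

set_option autoImplicit false
set_option linter.unusedSectionVars false

namespace Pool.Agent.Helper264.NT

open Filter Topology MeasureTheory Set NumberField
open scoped ENNReal NNReal
open Pool.Agent.V11273.PV Pool.Agent.H107.Per Pool.Agent.Y890.MV

/-- covers for independent analytic functions -/
theorem fix_indep1 {X S : Type} [Fintype X] [DecidableEq X] [Nonempty X] [Fintype S] [DecidableEq S]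
    {U : Set (X → ℂ)} (hU : IsPreconnected U) (hUo : IsOpen U) (hne : U.Nonempty) {f : S → (X → ℂ) → ℂ}
    (hfan : ∀ s, AnalyticOnNhd ℂ (f s) U)
    (hV : ∀ p : MvPolynomial S (MvPolynomial X ℂ), (∀ x ∈ U, evM f x p = 0) → p = 0) :
    FixCov U f (fun _ P => P ≠ 0) := by
  classical
  obtain ⟨L, _, _, _, F, hz, hfrac⟩ := exists_fieldM hU hUo hne hfan
  have hind : AlgebraicIndependent (MvPolynomial X ℂ) (F ∘ id) := by
    rw [algebraicIndependent_iff]
    intro p hp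
    exact hV p ((hz p).1 hp)
  have hloc : ∀ t ∈ U, LocIndM f t := fun t ht => locIndM_of hU hfan F hz id hind t ht
  intro k m ε hk hε
  -- the generic polynomial
  let Λ := S → Fin (k + 1)
  let 𝒢 : MvPolynomial S (MvPolynomial Λ (MvPolynomial X ℂ)) :=
    ∑ l : Λ, MvPolynomial.C (MvPolynomial.X l) * ∏ v, MvPolynomial.X v ^ (l v : ℕ)
  have hspec : ∀ (t : X → ℂ) (P : Λ → ℂ), spec 𝒢 t P =
      ∑ l : Λ, MvPolynomial.C (P l) * ∏ v, MvPolynomial.X v ^ (l v : ℕ) := by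
    intro t P
    simp only [spec, 𝒢, map_sum, map_mul, map_prod, map_pow, MvPolynomial.map_C, MvPolynomial.map_X,
      MvPolynomial.eval₂Hom_X']
  obtain ⟨D, C, T₀, hC, hT₀, H⟩ := covG f (InnerM U k) (innerM_compact _ _)
    (fun i t ht => hfan i t (innerM_sub _ hk ht)) (fun t ht => hloc t (innerM_sub _ hk ht))
    𝒢 (Fin k) m (k : ℝ) ε hε
  refine ⟨D, C, T₀, hC, hT₀, fun K _ _ hK io ξ T hT => (H K hK io ξ T hT).mono le_rfl le_rfl (Set.image_mono ?_)⟩
  rintro s ⟨hs1, hs2, P, ⟨hdeg, hcoef⟩, hzero, hne'⟩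
  choose c hc hc' using hcoef
  have hP : spec 𝒢 (fun i => io (s i)) (fun l => ∑ i, ξ i *
      io (c (Finsupp.equivFunOnFinite.symm fun y => (l y : ℕ)) i : K)) = P := by
    rw [hspec]
    refine MvPolynomial.funext fun w => ?_
    rw [← sum_exp hdeg w]
    simp only [map_sum, map_mul, map_prod, map_pow, MvPolynomial.eval_C, MvPolynomial.eval_X]
    refine Finset.sum_congr rfl fun l _ => ?_
    rw [hc']
  refine ⟨hs1, hs2, fun l i => c (Finsupp.equivFunOnFinite.symm fun y => (l y : ℕ)) i, fun l i φ => hc _ _ φ, ?_, ?_⟩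
  · rw [hP]
    exact hne'
  · rw [hP]
    exact hzero

/-- the values of the functions at the points over `K` near `z` satisfy no nonzero small relation -/
def Free {X S : Type} (f : S → (X → ℂ) → ℂ) (ξ : ℕ → ℂ) (z : X → ℂ) (w : ℝ) (K : Type) [Field K]
    [NumberField K] (io : K →+* ℂ) (k : ℕ) (T : ℝ) : Prop :=
  ∀ s : X → K, (∀ i, Y120.HtLe K T (s i)) → (∀ i, ‖io (s i) - z i‖ ≤ T ^ (-w)) →
    ∀ P : MvPolynomial S ℂ, Small K io k (res ξ k) T P →
      MvPolynomial.eval (fun a => f a fun i => io (s i)) P = 0 → P = 0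

/-- **The near-point theorem for independent functions**, complex and real. -/
theorem near_two {X S : Type} [Fintype X] [DecidableEq X] [Nonempty X] [Fintype S] [DecidableEq S]
    {U : Set (X → ℂ)} (hU : IsPreconnected U) (hUo : IsOpen U) (hne : U.Nonempty) {f : S → (X → ℂ) → ℂ}
    (hfan : ∀ s, AnalyticOnNhd ℂ (f s) U)
    (hV : ∀ p : MvPolynomial S (MvPolynomial X ℂ), (∀ x ∈ U, evM f x p = 0) → p = 0) (ξ : ℕ → ℂ) :
    (∃ E : Set (X → ℂ), dimH E ≤ ((2 * (Fintype.card X - 1) : ℕ) : ℝ≥0∞) ∧ ∀ z ∈ U, z ∉ E → ∀ w : ℝ, 0 < w →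
      ∀ (K : IntermediateField ℚ ℂ) [NumberField K] (k : ℕ), ∀ᶠ T : ℝ in atTop,
        Free f ξ z w K (algebraMap K ℂ) k T) ∧
    ∃ E : Set (X → ℝ), dimH E ≤ ((Fintype.card X - 1 : ℕ) : ℝ≥0∞) ∧
      ∀ z : X → ℝ, (fun i => (z i : ℂ)) ∈ U → z ∉ E → ∀ w : ℝ, 0 < w →
      ∀ (K : IntermediateField ℚ ℝ) [NumberField K] (k : ℕ), ∀ᶠ T : ℝ in atTop,
        Free f ξ (fun i => (z i : ℂ)) w K (Complex.ofRealHom.comp (algebraMap K ℝ)) k T := by
  have hO := fix_indep1 hU hUo hne hfan hV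
  constructor
  · obtain ⟨E, hE, h⟩ := near_fix (𝕜 := ℂ) (RingHom.id ℂ) (fun _ => rfl)
      (fun P hP => ⟨P, hP, le_rfl, fun x hx => by simpa [MvPolynomial.aeval_eq_eval] using hx⟩) hUo hO ξ
    refine ⟨E, by simpa using hE, fun z hz hzE w hw K _ k => ?_⟩
    obtain ⟨T₁, hT₁⟩ := h z hzE hz K w k hw
    exact Filter.eventually_atTop.2 ⟨T₁, fun T hT s hs hsz P hP h0 => not_not.1 (hT₁ T hT s hs hsz P hP h0)⟩
  · obtain ⟨E, hE, h⟩ := near_fix (𝕜 := ℝ) Complex.ofRealHom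
      (fun a => (Complex.norm_real a).symm) (fun P hP => real_part P hP) hUo hO ξ
    refine ⟨E, by simpa using hE, fun z hz hzE w hw K _ k => ?_⟩
    obtain ⟨T₁, hT₁⟩ := h z hzE hz K w k hw
    refine Filter.eventually_atTop.2 ⟨T₁, fun T hT s hs hsz P hP h0 => not_not.1 ?_⟩
    refine hT₁ T hT s hs (fun i => ?_) P hP h0
    have h1 := hsz i
    change ‖((s i : ℝ) : ℂ) - (z i : ℂ)‖ ≤ _ at h1
    rwa [← Complex.ofReal_sub, Complex.norm_real] at h1

end Pool.Agent.Helper264.NT
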