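import Pool.Agent.Helper264.NT.NearGen

/-! Near-point theorem: relations over `K` are specializations of functional relations over the algebraic numbers. -/

set_option autoImplicit false
set_option linter.unusedSectionVars false

namespace Pool.Agent.Helper264.NT

open Filter Topology MeasureTheory Set NumberField
open scoped ENNReal NNReal
open Pool.Agent.V11273.PV Pool.Agent.H107.Per Pool.Agent.Y890.MV

/-- **Relations near almost every point are specializations**, complex and real. -/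
theorem near_relQ {X σ : Type} [Fintype X] [DecidableEq X] [Nonempty X] [Fintype σ] [DecidableEq σ]
    {U : Set (X → ℂ)} {f : σ → (X → ℂ) → ℂ} (hU : IsPreconnected U) (hUo : IsOpen U) (hne : U.Nonempty)
    (hf : ∀ i, AnalyticOnNhd ℂ (f i) U) (hreg : RegularM U f) :
    (∃ E : Set (X → ℂ), dimH E ≤ ((2 * (Fintype.card X - 1) : ℕ) : ℝ≥0∞) ∧ ∀ z ∈ U, z ∉ E → ∀ w : ℝ, 0 < w →
      ∀ (K : IntermediateField ℚ ℂ) [NumberField K] (k : ℕ), ∀ᶠ T : ℝ in atTop,
        ∀ s : X → K, (∀ i, Y120.HtLe K T (s i)) → (∀ i, ‖algebraMap K ℂ (s i) - z i‖ ≤ T ^ (-w)) →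
          ¬ RelQ U f k K (algebraMap K ℂ) s T) ∧
    ∃ E : Set (X → ℝ), dimH E ≤ ((Fintype.card X - 1 : ℕ) : ℝ≥0∞) ∧
      ∀ z : X → ℝ, (fun i => (z i : ℂ)) ∈ U → z ∉ E → ∀ w : ℝ, 0 < w →
      ∀ (K : IntermediateField ℚ ℝ) [NumberField K] (k : ℕ), ∀ᶠ T : ℝ in atTop,
        ∀ s : X → K, (∀ i, Y120.HtLe K T (s i)) →
          (∀ i, ‖(Complex.ofRealHom.comp (algebraMap K ℝ)) (s i) - (z i : ℂ)‖ ≤ T ^ (-w)) →
          ¬ RelQ U f k K (Complex.ofRealHom.comp (algebraMap K ℝ)) s T := by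
  constructor
  · obtain ⟨E, hE, h⟩ := near_gen (𝕜 := ℂ) (RingHom.id ℂ) (fun _ => rfl)
      (fun P hP => ⟨P, hP, le_rfl, fun x hx => by simpa [MvPolynomial.aeval_eq_eval] using hx⟩) hUo
      (fun k K _ _ io s T => RelQ U f k K io s T) (fun k K _ _ io s T T' => relQ_mono k K io s T T')
      (relQ_cov hU hUo hne hf hreg)
    refine ⟨E, by simpa using hE, fun z hz hzE w hw K _ k => ?_⟩
    obtain ⟨T₁, hT₁⟩ := h z hzE hz K w k hw
    exact Filter.eventually_atTop.2 ⟨T₁, fun T hT s hs hsz => hT₁ T hT s hs hsz⟩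
  · obtain ⟨E, hE, h⟩ := near_gen (𝕜 := ℝ) Complex.ofRealHom
      (fun a => (Complex.norm_real a).symm) (fun P hP => real_part P hP) hUo
      (fun k K _ _ io s T => RelQ U f k K io s T) (fun k K _ _ io s T T' => relQ_mono k K io s T T')
      (relQ_cov hU hUo hne hf hreg)
    refine ⟨E, by simpa using hE, fun z hz hzE w hw K _ k => ?_⟩
    obtain ⟨T₁, hT₁⟩ := h z hzE hz K w k hw
    refine Filter.eventually_atTop.2 ⟨T₁, fun T hT s hs hsz => ?_⟩
    refine hT₁ T hT s hs (fun i => ?_)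
    have h1 := hsz i
    change ‖((s i : ℝ) : ℂ) - (z i : ℂ)‖ ≤ _ at h1
    rwa [← Complex.ofReal_sub, Complex.norm_real] at h1

end Pool.Agent.Helper264.NT
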