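import Pool.Agent.Helper264.NT.NearK2

/-! The near-point theorem for `π` and values of analytic functions, real and complex form. -/

set_option autoImplicit false
set_option linter.unusedSectionVars false

namespace Pool.Agent.Helper264.NT

open Filter Topology MeasureTheory Set Height
open scoped ENNReal NNReal

/-- points near a point of an open set are in the set -/
theorem mem_of_near {𝕜 : Type} [RCLike 𝕜] {X : Type} [Fintype X] (S : X → Set 𝕜) (hSo : ∀ x, IsOpen (S x)) (z : X → 𝕜)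
    (hz : ∀ x, z x ∈ S x) (w : ℝ) (hw : 0 < w) : ∃ T0 : ℝ, 1 ≤ T0 ∧ ∀ T ≥ T0, ∀ u : X → 𝕜,
      (∀ x, ‖u x - z x‖ ≤ T ^ (-w)) → ∀ x, u x ∈ S x := by
  choose ρ hρ hb using fun x => Metric.isOpen_iff.1 (hSo x) (z x) (hz x)
  obtain ⟨M, hM⟩ := (Finset.image (fun x => (ρ x)⁻¹) Finset.univ).exists_le
  have hM1 : (0 : ℝ) < max M 1 := lt_max_of_lt_right one_pos
  refine ⟨max 1 ((2 * max M 1) ^ (1 / w)), le_max_left _ _, fun T hT u hu x => hb x ?_⟩
  have hT1 : 1 ≤ T := (le_max_left _ _).trans hT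
  have hTM : (2 * max M 1) ^ (1 / w) ≤ T := (le_max_right _ _).trans hT
  have hTpos : 0 < T := by linarith
  have h2M : (0 : ℝ) < 2 * max M 1 := by positivity
  have hTw : T ^ (-w) ≤ (2 * max M 1)⁻¹ := by
    rw [Real.rpow_neg hTpos.le]
    refine inv_anti₀ h2M ?_
    have h1 := Real.rpow_le_rpow (Real.rpow_nonneg h2M.le _) hTM hw.le
    rwa [← Real.rpow_mul h2M.le, one_div_mul_cancel hw.ne', Real.rpow_one] at h1
  have h2 := hM _ (Finset.mem_image_of_mem _ (Finset.mem_univ x))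
  rw [Metric.mem_ball, dist_eq_norm]
  refine lt_of_le_of_lt ((hu x).trans hTw) ?_
  rw [inv_lt_comm₀ h2M (hρ x)]
  exact lt_of_le_of_lt (h2.trans (le_max_left _ _)) (by linarith)

/-- **The real form.** -/
theorem mainR {X κ : Type} [Fintype X] [DecidableEq X] [Nonempty X] [Fintype κ] (f : X → κ → ℝ → ℝ) (S : X → Set ℝ)
    (hSo : ∀ x, IsOpen (S x)) (hS : ∀ x, IsPreconnected (S x)) (han : ∀ x y, AnalyticOnNhd ℝ (f x y) (S x))
    (hind : ∀ x, Pool.Agent.Y771.KF.AIndepS (f x) (S x)) :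
    ∃ E : Set (X → ℝ), dimH E ≤ ((Fintype.card X - 1 : ℕ) : ℝ≥0∞) ∧
      ∀ z ∉ E, (∀ x, z x ∈ S x) → ∀ (K : IntermediateField ℚ ℝ) [NumberField K] (d : ℕ) (A w : ℝ), 0 < w →
        ∃ B T0 : ℝ, ∀ T ≥ T0, ∀ t : X → K, (∀ x, mulHeight₁ (t x) ≤ T ∧ |(t x : ℝ) - z x| ≤ T ^ (-w)) →
          (∀ x, (t x : ℝ) ∈ S x) ∧
          NoRelK (algebraMap K ℝ) (fun o : Option (X × κ) => o.elim Real.pi fun c => f c.1 c.2 (t c.1)) d A B T := by
  obtain ⟨E, hE1, hE2⟩ := mainK (𝕜 := ℝ) (X := X) Complex.ofRealHom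
    (fun a => (Complex.norm_real a).symm) f (fun _ : Unit => Real.pi) S hSo hS han hind Pool.Agent.Y124.goodXi_pi
  refine ⟨E, by simpa using hE1, fun z hz hzS K _ d A w hw => ?_⟩
  obtain ⟨B, T0, h⟩ := hE2 z hz hzS K d A w hw
  obtain ⟨T1, hT1, h1⟩ := mem_of_near S hSo z hzS w hw
  refine ⟨B, max T0 T1, fun T hT t ht => ⟨?_, ?_⟩⟩
  · exact h1 T ((le_max_right _ _).trans hT) (fun x => (t x : ℝ)) fun x => (ht x).2
  · refine norel_rename (Equiv.optionEquivSumPUnit (X × κ)) (algebraMap K ℝ) f (fun _ : Unit => Real.pi) d A B T t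
      (h T ((le_max_left _ _).trans hT) t ht) (fun k => (ht k).1) _ ?_
    intro w
    cases w <;> rfl

/-- **The complex form.** -/
theorem mainC {X κ : Type} [Fintype X] [DecidableEq X] [Nonempty X] [Fintype κ] (f : X → κ → ℂ → ℂ) (S : X → Set ℂ)
    (hSo : ∀ x, IsOpen (S x)) (hS : ∀ x, IsPreconnected (S x)) (han : ∀ x y, AnalyticOnNhd ℂ (f x y) (S x))
    (hind : ∀ x, Pool.Agent.Y771.KF.AIndepS (f x) (S x)) :
    ∃ E : Set (X → ℂ), dimH E ≤ ((2 * (Fintype.card X - 1) : ℕ) : ℝ≥0∞) ∧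
      ∀ z ∉ E, (∀ x, z x ∈ S x) → ∀ (K : IntermediateField ℚ ℂ) [NumberField K] (d : ℕ) (A w : ℝ), 0 < w →
        ∃ B T0 : ℝ, ∀ T ≥ T0, ∀ t : X → K, (∀ x, mulHeight₁ (t x) ≤ T ∧ ‖(t x : ℂ) - z x‖ ≤ T ^ (-w)) →
          (∀ x, (t x : ℂ) ∈ S x) ∧
          NoRelK (algebraMap K ℂ) (fun o : Option (X × κ) => o.elim (Real.pi : ℂ) fun c => f c.1 c.2 (t c.1))
            d A B T := by
  obtain ⟨E, hE1, hE2⟩ := mainK (𝕜 := ℂ) (X := X) (RingHom.id ℂ)
    (fun a => rfl) f (fun _ : Unit => Real.pi) S hSo hS han hind Pool.Agent.Y124.goodXi_pi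
  refine ⟨E, by simpa using hE1, fun z hz hzS K _ d A w hw => ?_⟩
  obtain ⟨B, T0, h⟩ := hE2 z hz hzS K d A w hw
  obtain ⟨T1, hT1, h1⟩ := mem_of_near S hSo z hzS w hw
  refine ⟨B, max T0 T1, fun T hT t ht => ⟨?_, ?_⟩⟩
  · exact h1 T ((le_max_right _ _).trans hT) (fun x => (t x : ℂ)) fun x => (ht x).2
  · refine norel_rename (Equiv.optionEquivSumPUnit (X × κ)) (algebraMap K ℂ) f (fun _ : Unit => Real.pi) d A B T t
      (h T ((le_max_left _ _).trans hT) t ht) (fun k => (ht k).1) _ ?_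
    intro w
    cases w <;> rfl

/-- algebraic independence on a larger set -/
theorem aindepS_mono {𝕜 : Type} [RCLike 𝕜] {κ : Type} (f : κ → 𝕜 → 𝕜) (S S' : Set 𝕜) (h : Pool.Agent.Y771.KF.AIndepS f S)
    (hS : S ⊆ S') : Pool.Agent.Y771.KF.AIndepS f S' := fun P hP => h P fun t ht => hP t (hS ht)

/-- algebraic independence over `ℝ(t)` on an interval from linear independence of monomials on a smaller interval -/
theorem aindepS_of_rindep {κ : Type} [Fintype κ] [DecidableEq κ] (u : κ → ℝ → ℝ) (a b : ℝ)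
    (h : ∀ d : ℕ, TH818.AP.RIndep (fun (e : κ → Fin (d + 1)) (t : ℝ) => ∏ y, u y t ^ (e y : ℕ)) a b) (S : Set ℝ)
    (hS : Set.Icc a b ⊆ S) : Pool.Agent.Y771.KF.AIndepS u S :=
  fun P hP => Pool.Agent.Y771.KF.aindep_of_rindep u a b h P fun t ht => hP t (hS ht)

end Pool.Agent.Helper264.NT
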