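import Pool.Agent.Helper264.NT.NearGen
import Pool.Agent.V11273.PV.G25

/-! Near almost every point the linear algebra test for equality answers at all points. -/

set_option autoImplicit false
set_option linter.unusedSectionVars false

namespace Pool.Agent.Helper264.NT

open Filter Topology MeasureTheory Set NumberField
open scoped ENNReal NNReal
open Pool.Agent.V11273.PV Pool.Agent.H107.Per Pool.Agent.Y890.MV
open Pool.Agent.Y890.SP (exists_omega Qbar)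

section

variable {X : Type} [Fintype X] [DecidableEq X] {σ : Type}

/-- a small relation at `s` over the span of the `ξ i` which is not the specialization of a functional relation -/
def RelX (U : Set (X → ℂ)) (f : σ → (X → ℂ) → ℂ) (k : ℕ) (ξ : Fin k → ℂ) (K : Type) [Field K] [NumberField K]
    (io : K →+* ℂ) (s : X → K) (T : ℝ) : Prop :=
  ∃ P : Fin k → MvPolynomial σ (𝓞 K), (∀ i y, (P i).degreeOf y ≤ k) ∧
    (∀ i m (φ : K →+* ℂ), ‖φ (((P i).coeff m : 𝓞 K) : K)‖ ≤ T ^ (k : ℝ)) ∧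
    ∑ i, ξ i * MvPolynomial.eval₂ (io.comp (algebraMap (𝓞 K) K)) (fun y => f y fun j => io (s j)) (P i) = 0 ∧
    ¬ SpecX U f k ξ (fun j => io (s j)) fun i => (P i).map (io.comp (algebraMap (𝓞 K) K))

theorem relX_sub [Fintype σ] [DecidableEq σ] {U : Set (X → ℂ)} {f : σ → (X → ℂ) → ℂ}
    {K : Type} [Field K] [NumberField K] (io : K →+* ℂ) {k₀ k : ℕ} {T : ℝ} {ξ : Fin k → ℂ} :
    {s : X → K | (∀ j, Y120.HtLe K T (s j)) ∧ (fun j => io (s j)) ∈ InnerM U k₀ ∧ RelX U f k ξ K io s T} ⊆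
      ExcM U f (InnerM U k₀) K io (XiX σ k ξ) k T := by
  classical
  rintro s ⟨hs, hin, P, hdeg, hcoef, hzero, hbad⟩
  set io' : 𝓞 K →+* ℂ := io.comp (algebraMap (𝓞 K) K) with hio'
  have hdeg' : ∀ i y, ((P i).map io').degreeOf y ≤ k := fun i y => (degreeOf_map_le' io' (P i) y).trans (hdeg i y)
  refine ⟨hs, hin, fun p => (P p.2).coeff (Finsupp.equivFunOnFinite.symm fun y => (p.1 y : ℕ)),
    fun p φ => hcoef _ _ φ, ?_, ?_⟩
  · intro u
    have h1 : ∀ i, ∑ l : σ → Fin (k + 1), ((P i).map io').coeff (Finsupp.equivFunOnFinite.symm fun y => (l y : ℕ)) *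
        ∏ y, f y (fun i => io (s i)) ^ (l y : ℕ) =
        MvPolynomial.eval₂ io' (fun y => f y fun j => io (s j)) (P i) := by
      intro i
      rw [sum_exp (hdeg' i) (fun y => f y fun i => io (s i)), MvPolynomial.eval_map]
    rw [← hzero]
    simp only [← h1, Finset.mul_sum]
    rw [Finset.sum_comm]
    refine Finset.sum_congr rfl fun l _ => ?_
    rw [XiX_sum, Finset.sum_mul]
    refine Finset.sum_congr rfl fun i _ => ?_
    rw [MvPolynomial.coeff_map]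
    simp only [hio', RingHom.comp_apply]
    ring
  · rintro ⟨G, hG1, hG2⟩
    set x0 : X → ℂ := fun i => io (s i) with hx0
    apply hbad
    refine ⟨fun i => ∑ l : σ → Fin (k + 1), MvPolynomial.C (G (l, i)) * ∏ y, MvPolynomial.X y ^ (l y : ℕ),
      fun i y => mon_deg (fun l => G (l, i)) y, fun x hx => ?_, fun i => ?_⟩
    · have h2 := hG2 x hx ()
      simp only [XiX_sum] at h2
      rw [← h2]
      simp only [mon_eval (fun l => G (l, _)) x]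
      simp only [Finset.mul_sum, Finset.sum_mul]
      rw [Finset.sum_comm]
      refine Finset.sum_congr rfl fun l _ => Finset.sum_congr rfl fun i _ => ?_
      ring
    · refine MvPolynomial.funext fun w => ?_
      rw [← sum_exp (hdeg' i) w, MvPolynomial.eval_map, mon_eval (fun l => G (l, i))]
      refine Finset.sum_congr rfl fun l _ => ?_
      rw [hG1 (l, i), MvPolynomial.coeff_map]
      rfl

/-- the test with the table `R` gives no answer at `s`, at any precision, for some pair of small expressions -/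
def RelT (f : σ → (X → ℂ) → ℂ) {m : ℕ} (k : ℕ) (ξ : Fin k → ℂ)
    (R : Fin m → Fin k → MvPolynomial σ (MvPolynomial X Qbar)) (K : Type) [Field K] [NumberField K] (io : K →+* ℂ)
    (s : X → K) (T : ℝ) : Prop :=
  ∃ P₁ P₂ : Fin k → MvPolynomial σ (𝓞 K),
    (∀ i y, (P₁ i).degreeOf y ≤ k ∧ (P₂ i).degreeOf y ≤ k) ∧
    (∀ i m (φ : K →+* ℂ), ‖φ (((P₁ i).coeff m : 𝓞 K) : K)‖ ≤ T ^ (k : ℝ) / 2 ∧
      ‖φ (((P₂ i).coeff m : 𝓞 K) : K)‖ ≤ T ^ (k : ℝ) / 2) ∧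
    ∀ δ : ℝ, 0 < δ → ∃ v₁ v₂ : ℂ,
      ‖v₁ - valX f ξ (fun j => io (s j)) fun i => (P₁ i).map (io.comp (algebraMap (𝓞 K) K))‖ ≤ δ ∧
      ‖v₂ - valX f ξ (fun j => io (s j)) fun i => (P₂ i).map (io.comp (algebraMap (𝓞 K) K))‖ ≤ δ ∧
      tst R (fun j => io (s j)) (fun i => (P₁ i).map (io.comp (algebraMap (𝓞 K) K)))
        (fun i => (P₂ i).map (io.comp (algebraMap (𝓞 K) K))) v₁ v₂ δ = none

theorem relT_relX [Fintype σ] [DecidableEq σ] {U : Set (X → ℂ)} {f : σ → (X → ℂ) → ℂ} {m k : ℕ} {ξ : Fin k → ℂ}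
    {R : Fin m → Fin k → MvPolynomial σ (MvPolynomial X Qbar)}
    (hR : ∀ (x₀ : X → ℂ) (P : Fin k → MvPolynomial σ ℂ), SpecX U f k ξ x₀ P →
      P ∈ Submodule.span ℂ (Set.range fun a i =>
        (R a i).map (MvPolynomial.aeval x₀ : MvPolynomial X Qbar →ₐ[Qbar] ℂ).toRingHom))
    {K : Type} [Field K] [NumberField K] (io : K →+* ℂ) {T : ℝ} {s : X → K} (h : RelT f k ξ R K io s T) :
    RelX U f k ξ K io s T := by
  classical
  obtain ⟨P₁, P₂, hdeg, hcoef, hno⟩ := h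
  set io' : 𝓞 K →+* ℂ := io.comp (algebraMap (𝓞 K) K) with hio'
  set x₀ : X → ℂ := fun j => io (s j) with hx₀
  set Q₁ : Fin k → MvPolynomial σ ℂ := fun i => (P₁ i).map io' with hQ₁
  set Q₂ : Fin k → MvPolynomial σ ℂ := fun i => (P₂ i).map io' with hQ₂
  have hQ : (fun i => (P₁ i - P₂ i).map io') = Q₁ - Q₂ := by
    funext i
    simp only [hQ₁, hQ₂, Pi.sub_apply, map_sub]
  -- the difference is not in the span
  have hns : Q₁ - Q₂ ∉ Submodule.span ℂ (Set.range fun a i =>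
      (R a i).map (MvPolynomial.aeval x₀ : MvPolynomial X Qbar →ₐ[Qbar] ℂ).toRingHom) := by
    intro h
    obtain ⟨v₁, v₂, -, -, h3⟩ := hno 1 one_pos
    unfold tst at h3
    rw [if_pos h] at h3
    exact absurd h3 (by simp)
  -- the values are equal
  have heq : valX f ξ x₀ Q₁ = valX f ξ x₀ Q₂ := by
    by_contra hne
    have hpos : 0 < ‖valX f ξ x₀ Q₁ - valX f ξ x₀ Q₂‖ := norm_pos_iff.2 (sub_ne_zero.2 hne)
    obtain ⟨v₁, v₂, h1, h2, h3⟩ := hno (‖valX f ξ x₀ Q₁ - valX f ξ x₀ Q₂‖ / 5) (by positivity)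
    unfold tst at h3
    rw [if_neg hns] at h3
    split_ifs at h3 with h4
    apply h4
    have h5 : ‖valX f ξ x₀ Q₁ - valX f ξ x₀ Q₂‖ ≤ ‖v₁ - v₂‖ + ‖v₁ - valX f ξ x₀ Q₁‖ + ‖v₂ - valX f ξ x₀ Q₂‖ := by
      have h6 : valX f ξ x₀ Q₁ - valX f ξ x₀ Q₂ = (v₁ - v₂) - (v₁ - valX f ξ x₀ Q₁) + (v₂ - valX f ξ x₀ Q₂) := by ring
      calc _ = ‖(v₁ - v₂) - (v₁ - valX f ξ x₀ Q₁) + (v₂ - valX f ξ x₀ Q₂)‖ := by rw [← h6]
        _ ≤ ‖(v₁ - v₂) - (v₁ - valX f ξ x₀ Q₁)‖ + ‖v₂ - valX f ξ x₀ Q₂‖ := norm_add_le _ _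
        _ ≤ _ := by
          have := norm_sub_le (v₁ - v₂) (v₁ - valX f ξ x₀ Q₁)
          linarith
    linarith
  refine ⟨fun i => P₁ i - P₂ i, fun i y => ?_, fun i m φ => ?_, ?_, ?_⟩
  · exact (MvPolynomial.degreeOf_sub_le y _ _).trans (max_le (hdeg i y).1 (hdeg i y).2)
  · have h1 := hcoef i m φ
    have h2 : φ (((P₁ i - P₂ i).coeff m : 𝓞 K) : K) = φ (((P₁ i).coeff m : 𝓞 K) : K) - φ (((P₂ i).coeff m : 𝓞 K) : K) := by
      rw [MvPolynomial.coeff_sub]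
      exact map_sub (φ.comp (algebraMap (𝓞 K) K)) _ _
    rw [h2]
    have := norm_sub_le (φ (((P₁ i).coeff m : 𝓞 K) : K)) (φ (((P₂ i).coeff m : 𝓞 K) : K))
    linarith [h1.1, h1.2]
  · have h1 := valX_sub f ξ x₀ Q₁ Q₂
    rw [heq, sub_self, ← hQ] at h1
    rw [← h1]
    simp only [valX, MvPolynomial.eval_map]
    rfl
  · intro h
    apply hns
    have h2 := hR x₀ _ h
    rw [hQ] at h2
    exact h2


theorem relT_mono (f : σ → (X → ℂ) → ℂ) {m : ℕ} (k : ℕ) (ξ : Fin k → ℂ)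
    (R : Fin m → Fin k → MvPolynomial σ (MvPolynomial X Qbar)) (K : Type) [Field K] [NumberField K] (io : K →+* ℂ)
    (s : X → K) (T T' : ℝ) (hT : 1 ≤ T) (hTT : T ≤ T') (h : RelT f k ξ R K io s T) : RelT f k ξ R K io s T' := by
  obtain ⟨P₁, P₂, h1, h2, h3⟩ := h
  have h4 : T ^ (k : ℝ) / 2 ≤ T' ^ (k : ℝ) / 2 :=
    div_le_div_of_nonneg_right (Real.rpow_le_rpow (by linarith) hTT (Nat.cast_nonneg k)) (by norm_num)
  exact ⟨P₁, P₂, h1, fun i m φ => ⟨(h2 i m φ).1.trans h4, (h2 i m φ).2.trans h4⟩, h3⟩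

/-- **The near-point theorem for the test**, complex and real. -/
theorem near_tab [Nonempty X] [Fintype σ] [DecidableEq σ]
    {U : Set (X → ℂ)} {f : σ → (X → ℂ) → ℂ} (hU : IsPreconnected U) (hUo : IsOpen U) (hne : U.Nonempty)
    (hf : ∀ i, AnalyticOnNhd ℂ (f i) U) (hreg : RegularM U f) (ξ : ℕ → ℂ) :
    ∃ (M : ℕ → ℕ) (R : ∀ k, Fin (M k) → Fin k → MvPolynomial σ (MvPolynomial X Qbar)),
      (∀ (k : ℕ), ∀ x ∈ U, ∀ (P₁ P₂ : Fin k → MvPolynomial σ ℂ) (v₁ v₂ : ℂ) (δ : ℝ),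
        ‖v₁ - valX f (res ξ k) x P₁‖ ≤ δ → ‖v₂ - valX f (res ξ k) x P₂‖ ≤ δ →
        (tst (R k) x P₁ P₂ v₁ v₂ δ = some true → valX f (res ξ k) x P₁ = valX f (res ξ k) x P₂) ∧
        (tst (R k) x P₁ P₂ v₁ v₂ δ = some false → valX f (res ξ k) x P₁ ≠ valX f (res ξ k) x P₂)) ∧
    (∃ E : Set (X → ℂ), dimH E ≤ ((2 * (Fintype.card X - 1) : ℕ) : ℝ≥0∞) ∧ ∀ z ∈ U, z ∉ E → ∀ w : ℝ, 0 < w →
      ∀ (K : IntermediateField ℚ ℂ) [NumberField K] (k : ℕ), ∀ᶠ T : ℝ in atTop,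
        ∀ s : X → K, (∀ i, Y120.HtLe K T (s i)) → (∀ i, ‖algebraMap K ℂ (s i) - z i‖ ≤ T ^ (-w)) →
          ¬ RelT f k (res ξ k) (R k) K (algebraMap K ℂ) s T) ∧
    ∃ E : Set (X → ℝ), dimH E ≤ ((Fintype.card X - 1 : ℕ) : ℝ≥0∞) ∧
      ∀ z : X → ℝ, (fun i => (z i : ℂ)) ∈ U → z ∉ E → ∀ w : ℝ, 0 < w →
      ∀ (K : IntermediateField ℚ ℝ) [NumberField K] (k : ℕ), ∀ᶠ T : ℝ in atTop,
        ∀ s : X → K, (∀ i, Y120.HtLe K T (s i)) →
          (∀ i, ‖(Complex.ofRealHom.comp (algebraMap K ℝ)) (s i) - (z i : ℂ)‖ ≤ T ^ (-w)) →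
          ¬ RelT f k (res ξ k) (R k) K (Complex.ofRealHom.comp (algebraMap K ℝ)) s T := by
  classical
  choose M R hR1 hR2 hR3 using fun k : ℕ => table U f k (res ξ k)
  refine ⟨M, R, fun k x hx P₁ P₂ v₁ v₂ δ hv1 hv2 => tst_sound (hR2 k) hx hv1 hv2, ?_⟩
  have hcov : ∀ (k₀ k m : ℕ) (ε : ℝ), 0 < k₀ → 0 < ε → ∃ (D : ℕ) (C T₀ : ℝ), 0 ≤ C ∧ 2 ≤ T₀ ∧
      ∀ (K : Type) [Field K] [NumberField K], Module.finrank ℚ K ≤ m → ∀ (io : K →+* ℂ) (T : ℝ),
        T₀ ≤ T → Pool.Agent.Y124.Cov D ⌊C * T ^ ε⌋₊ ((fun (s : X → K) i => io (s i)) ''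
          {s | (∀ j, Y120.HtLe K T (s j)) ∧ (fun j => io (s j)) ∈ InnerM U k₀ ∧
            RelT f k (res ξ k) (R k) K io s T}) := by
    intro k₀ k m ε hk₀ hε
    obtain ⟨D, C, T₀, hC, hT₀, H⟩ := excM_cov stmZ stmClose stmCharts hU hUo hne hf hreg (InnerM U k₀)
      (innerM_compact _ _) (innerM_sub _ hk₀) k ((σ → Fin (k + 1)) × Fin k) Unit m (k : ℝ) ε hε
    refine ⟨D, C, T₀, hC, hT₀, fun K _ _ hK io T hT => ?_⟩
    refine (H K hK io (XiX σ k (res ξ k)) T hT).mono le_rfl le_rfl (Set.image_mono ?_)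
    refine Set.Subset.trans ?_ (relX_sub io)
    rintro s ⟨h1, h2, h3⟩
    exact ⟨h1, h2, relT_relX (hR3 k) io h3⟩
  constructor
  · obtain ⟨E, hE, h⟩ := near_gen (𝕜 := ℂ) (RingHom.id ℂ) (fun _ => rfl)
      (fun P hP => ⟨P, hP, le_rfl, fun x hx => by simpa [MvPolynomial.aeval_eq_eval] using hx⟩) hUo
      (fun k K _ _ io s T => RelT f k (res ξ k) (R k) K io s T)
      (fun k K _ _ io s T T' => relT_mono f k (res ξ k) (R k) K io s T T') hcov
    refine ⟨E, by simpa using hE, fun z hz hzE w hw K _ k => ?_⟩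
    obtain ⟨T₁, hT₁⟩ := h z hzE hz K w k hw
    exact Filter.eventually_atTop.2 ⟨T₁, fun T hT s hs hsz => hT₁ T hT s hs hsz⟩
  · obtain ⟨E, hE, h⟩ := near_gen (𝕜 := ℝ) Complex.ofRealHom
      (fun a => (Complex.norm_real a).symm) (fun P hP => real_part P hP) hUo
      (fun k K _ _ io s T => RelT f k (res ξ k) (R k) K io s T)
      (fun k K _ _ io s T T' => relT_mono f k (res ξ k) (R k) K io s T T') hcov
    refine ⟨E, by simpa using hE, fun z hz hzE w hw K _ k => ?_⟩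
    obtain ⟨T₁, hT₁⟩ := h z hzE hz K w k hw
    refine Filter.eventually_atTop.2 ⟨T₁, fun T hT s hs hsz => ?_⟩
    refine hT₁ T hT s hs (fun i => ?_)
    have h1 := hsz i
    change ‖((s i : ℝ) : ℂ) - (z i : ℂ)‖ ≤ _ at h1
    rwa [← Complex.ofReal_sub, Complex.norm_real] at h1

end

end Pool.Agent.Helper264.NT
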