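import Pool.Agent.H107.MetricPi

/-! Covering the zero sets of polynomials of bounded degree by small balls, uniformly in the polynomial. -/

set_option autoImplicit false
set_option linter.unusedSectionVars false

namespace Pool.Agent.Helper264.NT

open Filter Topology MeasureTheory Set MvPolynomial
open scoped ENNReal NNReal

section

variable {𝕜 : Type*} [RCLike 𝕜] {ι : Type*} [Fintype ι] [DecidableEq ι]

theorem pderiv_lt (p : MvPolynomial ι 𝕜) (i : ι) (h : pderiv i p ≠ 0) :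
    (pderiv i p).totalDegree < p.totalDegree := by
  obtain ⟨m, hm, hmax⟩ := Finset.exists_mem_eq_sup _ (support_nonempty.2 h)
    (fun s : ι →₀ ℕ => s.sum fun _ e => e)
  have h1 : (pderiv i p).totalDegree = m.sum fun _ e => e := hmax
  have h2 : coeff m (pderiv i p) ≠ 0 := mem_support_iff.1 hm
  rw [coeff_pderiv] at h2
  have h3 : coeff (m + Finsupp.single i 1) p ≠ 0 := fun h0 => h2 (by rw [h0]; simp)
  have h4 := le_totalDegree (mem_support_iff.2 h3)
  rw [Finsupp.sum_add_index' (by simp) (by simp)] at h4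
  simp at h4
  rw [h1]
  simpa [Finsupp.sum] using Nat.lt_of_succ_le h4

theorem pderiv_ex (u : MvPolynomial ι 𝕜) (hu : 0 < u.totalDegree) : ∃ j, pderiv j u ≠ 0 := by
  have hu0 : u ≠ 0 := by rintro rfl; simp at hu
  obtain ⟨m, hm, hm2⟩ := (totalDegree_eq u).symm ▸
    Finset.exists_mem_eq_sup u.support (by
      rwa [Finset.nonempty_iff_ne_empty, Ne, support_eq_empty]) (fun m => m.toMultiset.card)
  obtain ⟨j, hj⟩ : ∃ j, m j ≠ 0 := by
    by_contra hcon
    push Not at hcon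
    have : m = 0 := by ext i; simp [hcon i]
    rw [this] at hm2
    simp at hm2
    omega
  have h1 : m - Finsupp.single j 1 + Finsupp.single j 1 = m :=
    tsub_add_cancel_of_le (by rw [Finsupp.single_le_iff]; omega)
  have h2 : coeff (m - Finsupp.single j 1) (pderiv j u) ≠ 0 := by
    rw [coeff_pderiv, h1]
    exact mul_ne_zero (mem_support_iff.1 hm) (Nat.cast_add_one_ne_zero _)
  exact ⟨j, fun h0 => by rw [h0] at h2; exact h2 (coeff_zero _)⟩

theorem strict_aeval (G : MvPolynomial ι 𝕜) (x : ι → 𝕜) :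
    ∃ L : (ι → 𝕜) →L[𝕜] 𝕜, (∀ v, L v = ∑ j, (aeval x (pderiv j G) : 𝕜) * v j) ∧
      HasStrictFDerivAt (fun y : ι → 𝕜 => (aeval y G : 𝕜)) L x := by
  induction G using MvPolynomial.induction_on with
  | C a =>
    refine ⟨0, fun v => by simp, ?_⟩
    have h : (fun y : ι → 𝕜 => (aeval y (C a : MvPolynomial ι 𝕜) : 𝕜)) = fun _ => a := by
      funext y
      rw [aeval_C]
      rfl
    rw [h]
    exact hasStrictFDerivAt_const a x
  | add p q hp hq =>
    obtain ⟨L, hL, h⟩ := hp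
    obtain ⟨L', hL', h'⟩ := hq
    refine ⟨L + L', fun v => ?_, ?_⟩
    · rw [add_apply, hL, hL', ← Finset.sum_add_distrib]
      refine Finset.sum_congr rfl fun j _ => ?_
      rw [map_add, map_add, add_mul]
    · have e1 : (fun y : ι → 𝕜 => (aeval y (p + q) : 𝕜)) = fun y => aeval y p + aeval y q := by
        funext y; rw [map_add]
      rw [e1]
      exact h.add h'
  | mul_X p i hp =>
    obtain ⟨L, hL, h⟩ := hp
    have hX : HasStrictFDerivAt (fun y : ι → 𝕜 => y i)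
        (ContinuousLinearMap.proj i : (ι → 𝕜) →L[𝕜] 𝕜) x :=
      (ContinuousLinearMap.proj i : (ι → 𝕜) →L[𝕜] 𝕜).hasStrictFDerivAt
    have e1 : (fun y : ι → 𝕜 => (aeval y (p * X i) : 𝕜)) = fun y => aeval y p * y i := by
      funext y; rw [map_mul, aeval_X]
    refine ⟨_, fun v => ?_, by rw [e1]; exact h.mul hX⟩
    simp only [add_apply, smul_apply, ContinuousLinearMap.proj_apply, smul_eq_mul,
      Derivation.leibniz, map_add, map_mul, aeval_X, pderiv_X, hL]
    have h2 : ∀ j, (aeval x p * aeval x (Pi.single (M := fun _ => MvPolynomial ι 𝕜) j 1 i) +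
        x i * aeval x (pderiv j p)) * v j = aeval x p * (if i = j then v j else 0) +
        x i * (aeval x (pderiv j p) * v j) := by
      intro j
      by_cases hij : i = j
      · subst hij; simp; ring
      · rw [Pi.single_apply, if_neg hij, if_neg hij]; simp; ring
    simp_rw [h2]
    rw [Finset.sum_add_distrib, ← Finset.mul_sum, ← Finset.mul_sum]
    simp

/-- forgetting one coordinate -/
def forget (i : ι) (y : ι → 𝕜) : {j // j ≠ i} → 𝕜 := fun j => y j

theorem antilip (p : MvPolynomial ι 𝕜) (i : ι) (x : ι → 𝕜) (ha : aeval x (pderiv i p) ≠ 0) :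
    ∃ C : ℝ, 0 ≤ C ∧ ∃ U ∈ 𝓝 x, ∀ y ∈ U, ∀ y' ∈ U, aeval y p = 0 → aeval y' p = 0 →
      ‖y - y'‖ ≤ C * ‖forget i y - forget i y'‖ := by
  obtain ⟨a, hadef⟩ : ∃ a : 𝕜, a = aeval x (pderiv i p) := ⟨_, rfl⟩
  rw [← hadef] at ha
  have ha0 : 0 < ‖a‖ := norm_pos_iff.2 ha
  obtain ⟨B, hB⟩ : ∃ B : ℝ, B = ∑ j, ‖(aeval x (pderiv j p) : 𝕜)‖ := ⟨_, rfl⟩
  have hB0 : 0 ≤ B := by rw [hB]; exact Finset.sum_nonneg fun _ _ => norm_nonneg _
  have hC0 : 0 ≤ 2 + 2 * B / ‖a‖ := add_nonneg zero_le_two (div_nonneg (mul_nonneg zero_le_two hB0) ha0.le)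
  obtain ⟨L, hL, hst⟩ := strict_aeval p x
  have hev := hst.isLittleO.def (show (0 : ℝ) < ‖a‖ / 2 by positivity)
  rw [nhds_prod_eq] at hev
  obtain ⟨U, hU, hUU⟩ := Filter.mem_prod_self_iff.1 hev
  refine ⟨2 + 2 * B / ‖a‖, hC0, U, hU, fun y hy y' hy' h0 h0' => ?_⟩
  have h1 := hUU (Set.mk_mem_prod hy hy')
  simp only [Set.mem_ofPred_eq] at h1
  rw [h0, h0', sub_zero, zero_sub, norm_neg] at h1
  obtain ⟨N, hN⟩ : ∃ N : ℝ, N = ‖forget i y - forget i y'‖ := ⟨_, rfl⟩
  rw [← hN]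
  have hN0 : 0 ≤ N := by rw [hN]; exact norm_nonneg _
  have hco : ∀ j, j ≠ i → ‖y j - y' j‖ ≤ N := by
    intro j hj
    rw [hN]
    exact norm_le_pi_norm (forget i y - forget i y') ⟨j, hj⟩
  have h2 : L (y - y') =
      a * (y i - y' i) + ∑ j ∈ Finset.univ.erase i, aeval x (pderiv j p) * (y j - y' j) := by
    rw [hL, ← Finset.add_sum_erase _ _ (Finset.mem_univ i), hadef]
    rfl
  have h3 : ‖∑ j ∈ Finset.univ.erase i, aeval x (pderiv j p) * (y j - y' j)‖ ≤ B * N := by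
    refine (norm_sum_le _ _).trans ?_
    have h4 : ∀ j ∈ Finset.univ.erase i, ‖aeval x (pderiv j p) * (y j - y' j)‖ ≤
        ‖aeval x (pderiv j p)‖ * N := by
      intro j hj
      rw [norm_mul]
      exact mul_le_mul_of_nonneg_left (hco j (Finset.ne_of_mem_erase hj)) (norm_nonneg _)
    refine (Finset.sum_le_sum h4).trans ?_
    rw [← Finset.sum_mul, hB]
    refine mul_le_mul_of_nonneg_right ?_ hN0
    exact Finset.sum_le_sum_of_subset_of_nonneg (Finset.erase_subset _ _) fun _ _ _ => norm_nonneg _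
  have h5 : ‖a‖ * ‖y i - y' i‖ ≤ ‖a‖ / 2 * ‖y - y'‖ + B * N := by
    rw [h2] at h1
    rw [← norm_mul]
    have h6 : a * (y i - y' i) = (a * (y i - y' i) +
        ∑ j ∈ Finset.univ.erase i, aeval x (pderiv j p) * (y j - y' j)) -
        ∑ j ∈ Finset.univ.erase i, aeval x (pderiv j p) * (y j - y' j) := by ring
    rw [h6]
    exact (norm_sub_le _ _).trans (add_le_add h1 h3)
  have h7 : ‖y - y'‖ ≤ ‖y i - y' i‖ + N := by
    rw [pi_norm_le_iff_of_nonneg (by positivity)]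
    intro j
    by_cases hj : j = i
    · subst hj
      exact le_add_of_nonneg_right hN0
    · exact (hco j hj).trans (le_add_of_nonneg_left (norm_nonneg _))
  have h8 : ‖y i - y' i‖ ≤ (1 + 2 * B / ‖a‖) * N := by
    have h9 : ‖a‖ * ‖y i - y' i‖ ≤ ‖a‖ / 2 * (‖y i - y' i‖ + N) + B * N :=
      h5.trans (add_le_add (mul_le_mul_of_nonneg_left h7 (by positivity)) le_rfl)
    have h10 : ‖a‖ * ‖y i - y' i‖ ≤ ‖a‖ * ((1 + 2 * B / ‖a‖) * N) := by
      have h11 : ‖a‖ * ((1 + 2 * B / ‖a‖) * N) = ‖a‖ * N + 2 * (B * N) := by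
        field_simp
      rw [h11]
      nlinarith
    exact le_of_mul_le_mul_left h10 ha0
  calc ‖y - y'‖ ≤ (1 + 2 * B / ‖a‖) * N + N := h7.trans (add_le_add h8 le_rfl)
    _ = (2 + 2 * B / ‖a‖) * N := by ring

theorem dimH_piece (p : MvPolynomial ι 𝕜) (i : ι) :
    dimH {y : ι → 𝕜 | aeval y p = 0 ∧ aeval y (pderiv i p) ≠ 0} ≤
      ((Module.finrank ℝ 𝕜 * (Fintype.card ι - 1) : ℕ) : ℝ≥0∞) := by
  by_contra hcon
  rw [not_le] at hcon
  obtain ⟨x, hx, hxx⟩ := exists_mem_nhdsWithin_lt_dimH_of_lt_dimH hcon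
  obtain ⟨C, hC, U, hU, hUC⟩ := antilip p i x hx.2
  set T : Set (ι → 𝕜) := U ∩ {y : ι → 𝕜 | aeval y p = 0 ∧ aeval y (pderiv i p) ≠ 0} with hT
  have h1 := hxx T (Filter.inter_mem (mem_nhdsWithin_of_mem_nhds hU) self_mem_nhdsWithin)
  have hanti : AntilipschitzWith ⟨C, hC⟩ (fun y : T => forget i (y : ι → 𝕜)) := by
    apply AntilipschitzWith.of_le_mul_dist
    rintro ⟨y, hy⟩ ⟨y', hy'⟩
    rw [Subtype.dist_eq, dist_eq_norm, dist_eq_norm]
    exact hUC y hy.1 y' hy'.1 hy.2.1 hy'.2.1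
  have h2 := hanti.le_dimH_image univ
  have h3 : dimH ((fun y : T => forget i (y : ι → 𝕜)) '' univ) ≤ dimH (univ : Set ({j // j ≠ i} → 𝕜)) :=
    dimH_mono (subset_univ _)
  rw [Real.dimH_univ_eq_finrank, Module.finrank_pi_fintype] at h3
  have h4 : dimH T = dimH (univ : Set T) := by
    have h5 : Isometry ((↑) : T → (ι → 𝕜)) := isometry_subtype_coe
    have := h5.dimH_image (univ : Set T)
    rw [image_univ, Subtype.range_coe] at this
    exact this
  rw [h4] at h1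
  have h6 : ∑ _j : {j // j ≠ i}, Module.finrank ℝ 𝕜 = Module.finrank ℝ 𝕜 * (Fintype.card ι - 1) := by
    rw [Finset.sum_const, Finset.card_univ, smul_eq_mul, mul_comm]
    congr 1
    exact Set.card_ne_eq i
  rw [h6] at h3
  exact absurd (h1.trans_le (h2.trans h3)) (lt_irrefl _)

/-- the zero set of a nonzero polynomial has dimension at most `n - 1` -/
theorem dimH_zeros (p : MvPolynomial ι 𝕜) (hp : p ≠ 0) :
    dimH {y : ι → 𝕜 | aeval y p = 0} ≤ ((Module.finrank ℝ 𝕜 * (Fintype.card ι - 1) : ℕ) : ℝ≥0∞) := by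
  induction hN : p.totalDegree using Nat.strong_induction_on generalizing p with
  | _ N ih =>
    by_cases h0 : p.totalDegree = 0
    · have h1 : p = C (coeff 0 p) := totalDegree_eq_zero_iff_eq_C.1 h0
      have h2 : {y : ι → 𝕜 | aeval y p = 0} = ∅ := by
        ext y
        simp only [Set.mem_ofPred_eq, Set.mem_empty_iff_false, iff_false]
        rw [h1, ← algebraMap_eq, AlgHom.commutes]
        intro h3
        apply hp
        rw [h1]
        have h4 : coeff 0 p = 0 := h3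
        rw [h4, map_zero]
      rw [h2, dimH_empty]
      exact bot_le
    · obtain ⟨i, hi⟩ := pderiv_ex p (Nat.pos_of_ne_zero h0)
      have h1 := ih _ (hN ▸ pderiv_lt p i hi) (pderiv i p) hi rfl
      have h2 : {y : ι → 𝕜 | aeval y p = 0} ⊆ {y : ι → 𝕜 | aeval y (pderiv i p) = 0} ∪
          {y : ι → 𝕜 | aeval y p = 0 ∧ aeval y (pderiv i p) ≠ 0} := by
        intro y hy
        by_cases h3 : aeval y (pderiv i p) = 0
        · exact Or.inl h3
        · exact Or.inr ⟨hy, h3⟩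
      refine (dimH_mono h2).trans ?_
      rw [dimH_union]
      exact max_le h1 (dimH_piece p i)

theorem sum_image_le_aux {ι κ : Type*} [DecidableEq κ] (F : Finset ι) (g : ι → κ) (f : κ → ℝ)
    (hf : ∀ i ∈ F, 0 ≤ f (g i)) : ∑ u ∈ F.image g, f u ≤ ∑ i ∈ F, f (g i) := by
  classical
  induction F using Finset.induction_on with
  | empty => simp
  | insert a F ha ih =>
    rw [Finset.image_insert, Finset.sum_insert ha]
    have ih' := ih fun i hi => hf i (Finset.mem_insert_of_mem hi)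
    have h0 := hf a (Finset.mem_insert_self _ _)
    by_cases h : g a ∈ F.image g
    · rw [Finset.insert_eq_of_mem h]
      linarith
    · rw [Finset.sum_insert h]
      linarith

/-- a compact set of measure zero has a finite cover by small balls with a small sum -/
theorem fin_cover {X : Type*} [MetricSpace X] [Nonempty X] [MeasurableSpace X] [BorelSpace X] (E : Set X)
    (hE : IsCompact E) (s : ℝ) (hs : 0 < s) (h0 : μH[s] E = 0) (ε : ℝ) (hε : 0 < ε) :
    ∃ U : Finset (X × ℝ), (∀ u ∈ U, 0 < u.2 ∧ u.2 ≤ ε) ∧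
      (∀ e ∈ E, ∃ u ∈ U, dist e u.1 < u.2) ∧ ∑ u ∈ U, u.2 ^ s ≤ 1 := by
  classical
  have hcpos : (0:ℝ) < 2 ^ s := by positivity
  obtain ⟨δ, hδ, hδc⟩ : ∃ δ : ℝ, 0 < δ ∧ 2 ^ s * (δ + δ) = 1 :=
    ⟨1 / (2 * 2 ^ s), by positivity, by field_simp; norm_num⟩
  rw [Measure.hausdorffMeasure_apply] at h0
  have hr : (0 : ENNReal) < ENNReal.ofReal (ε / 4) := by
    rw [ENNReal.ofReal_pos]; positivity
  have h1 := le_antisymm (le_trans (le_iSup₂_of_le (ENNReal.ofReal (ε / 4)) hr le_rfl) h0.le)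
    bot_le
  have h2 : _ < ENNReal.ofReal δ := lt_of_le_of_lt h1.le (ENNReal.ofReal_pos.2 hδ)
  rw [iInf_lt_iff] at h2
  obtain ⟨t, h2⟩ := h2
  rw [iInf_lt_iff] at h2
  obtain ⟨hcov, h2⟩ := h2
  rw [iInf_lt_iff] at h2
  obtain ⟨hdiam, h2⟩ := h2
  -- real diameters
  have hfin : ∀ n, Metric.ediam (t n) ≠ ⊤ := fun n => ne_top_of_le_ne_top ENNReal.ofReal_ne_top (hdiam n)
  set d : ℕ → ℝ := fun n => (Metric.ediam (t n)).toReal with hd
  have hd0 : ∀ n, 0 ≤ d n := fun n => ENNReal.toReal_nonneg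
  have hd4 : ∀ n, d n ≤ ε / 4 := fun n => by
    have := ENNReal.toReal_mono ENNReal.ofReal_ne_top (hdiam n)
    rwa [ENNReal.toReal_ofReal (by positivity)] at this
  have hds : ∀ n, ENNReal.ofReal (d n ^ s) ≤ ⨆ (_ : (t n).Nonempty), Metric.ediam (t n) ^ s := by
    intro n
    by_cases hn : (t n).Nonempty
    · rw [iSup_pos hn, ← ENNReal.ofReal_rpow_of_nonneg (hd0 n) hs.le, hd,
        ENNReal.ofReal_toReal (hfin n)]
    · have : d n = 0 := by
        rw [hd]; simp only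
        rw [Set.not_nonempty_iff_eq_empty.1 hn]; simp
      rw [this, Real.zero_rpow hs.ne']; simp
  have hsumd : ∀ F : Finset ℕ, ∑ n ∈ F, d n ^ s ≤ δ := by
    intro F
    have : ENNReal.ofReal (∑ n ∈ F, d n ^ s) ≤ ENNReal.ofReal δ := by
      rw [ENNReal.ofReal_sum_of_nonneg fun n _ => Real.rpow_nonneg (hd0 n) s]
      calc _ ≤ ∑ n ∈ F, ⨆ (_ : (t n).Nonempty), Metric.ediam (t n) ^ s :=
            Finset.sum_le_sum fun n _ => hds n
        _ ≤ _ := ENNReal.sum_le_tsum F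
        _ ≤ _ := h2.le
    exact (ENNReal.ofReal_le_ofReal_iff hδ.le).1 this
  -- the thetas
  set θ : ℕ → ℝ := fun n => min (ε / 4) ((δ * (1 / 2) ^ (n + 1)) ^ (1 / s)) with hθ
  have hθ0 : ∀ n, 0 < θ n := fun n => lt_min (by positivity) (by positivity)
  have hθ4 : ∀ n, θ n ≤ ε / 4 := fun n => min_le_left _ _
  have hθs : ∀ n, θ n ^ s ≤ δ * (1 / 2) ^ (n + 1) := by
    intro n
    calc θ n ^ s ≤ ((δ * (1 / 2) ^ (n + 1)) ^ (1 / s)) ^ s :=
          Real.rpow_le_rpow (hθ0 n).le (min_le_right _ _) hs.le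
      _ = _ := by
          rw [← Real.rpow_mul (by positivity), one_div_mul_cancel hs.ne', Real.rpow_one]
  have hsumθ : ∀ F : Finset ℕ, ∑ n ∈ F, θ n ^ s ≤ δ := by
    intro F
    have hg : HasSum (fun n : ℕ => δ * (1 / 2 : ℝ) ^ (n + 1)) δ := by
      have h := (hasSum_geometric_two.mul_left (δ * (1 / 2)))
      have e1 : (fun n : ℕ => δ * (1 / 2) * (1 / 2 : ℝ) ^ n) = fun n : ℕ => δ * (1 / 2) ^ (n + 1) := by
        funext n; rw [pow_succ]; ring
      have e2 : δ * (1 / 2) * 2 = δ := by ring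
      rw [e1, e2] at h
      exact h
    calc _ ≤ ∑ n ∈ F, δ * (1 / 2 : ℝ) ^ (n + 1) := Finset.sum_le_sum fun n _ => hθs n
      _ ≤ δ := sum_le_hasSum F (fun n _ => by positivity) hg
  -- the balls
  have hp : ∀ n, ∃ p : X, (t n).Nonempty → p ∈ t n := by
    intro n
    by_cases hn : (t n).Nonempty
    · exact ⟨hn.some, fun _ => hn.some_mem⟩
    · exact ⟨Classical.arbitrary X, fun h => absurd h hn⟩
  choose p hp using hp
  have hEc : E ⊆ ⋃ n, Metric.ball (p n) (d n + θ n) := by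
    intro e he
    obtain ⟨n, hn⟩ := Set.mem_iUnion.1 (hcov he)
    refine Set.mem_iUnion.2 ⟨n, ?_⟩
    rw [Metric.mem_ball]
    have h3 := hp n ⟨e, hn⟩
    have h4 : dist e (p n) ≤ d n := by
      rw [dist_edist]
      exact ENNReal.toReal_mono (hfin n) (Metric.edist_le_ediam_of_mem hn h3)
    linarith [hθ0 n]
  obtain ⟨F, hF⟩ := hE.elim_finite_subcover _ (fun n => Metric.isOpen_ball) hEc
  refine ⟨F.image fun n => (p n, d n + θ n), ?_, ?_, ?_⟩
  · intro u hu
    obtain ⟨n, _, rfl⟩ := Finset.mem_image.1 hu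
    constructor
    · have := hd0 n; have := hθ0 n; simp only; linarith
    · have := hd4 n; have := hθ4 n; simp only; linarith
  · intro e he
    obtain ⟨n, hn⟩ := Set.mem_iUnion.1 (hF he)
    obtain ⟨hnF, hn⟩ := Set.mem_iUnion.1 hn
    refine ⟨(p n, d n + θ n), Finset.mem_image_of_mem _ hnF, ?_⟩
    rwa [Metric.mem_ball] at hn
  · refine le_trans (sum_image_le_aux F _ (fun u : X × ℝ => u.2 ^ s) ?_) ?_
    · intro n _
      exact Real.rpow_nonneg (add_nonneg (hd0 n) (hθ0 n).le) s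
    · calc ∑ n ∈ F, (d n + θ n) ^ s ≤ ∑ n ∈ F, 2 ^ s * (d n ^ s + θ n ^ s) := by
            refine Finset.sum_le_sum fun n _ => ?_
            have hm : d n + θ n ≤ 2 * max (d n) (θ n) := by
              linarith [le_max_left (d n) (θ n), le_max_right (d n) (θ n)]
            calc (d n + θ n) ^ s ≤ (2 * max (d n) (θ n)) ^ s :=
                  Real.rpow_le_rpow (add_nonneg (hd0 n) (hθ0 n).le) hm hs.le
              _ = 2 ^ s * (max (d n) (θ n)) ^ s :=
                  Real.mul_rpow (by norm_num) (le_max_of_le_left (hd0 n))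
              _ ≤ 2 ^ s * (d n ^ s + θ n ^ s) := by
                  apply mul_le_mul_of_nonneg_left _ hcpos.le
                  have g1 := Real.rpow_nonneg (hd0 n) s
                  have g2 := Real.rpow_nonneg (hθ0 n).le s
                  rcases max_choice (d n) (θ n) with h | h <;> rw [h] <;> linarith
        _ = 2 ^ s * (∑ n ∈ F, d n ^ s + ∑ n ∈ F, θ n ^ s) := by
            rw [← Finset.mul_sum, Finset.sum_add_distrib]
        _ ≤ 2 ^ s * (δ + δ) :=
            mul_le_mul_of_nonneg_left (add_le_add (hsumd F) (hsumθ F)) hcpos.le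
        _ = 1 := hδc

/-- exponents of size at most `D` -/
noncomputable def expo (ι : Type*) [Fintype ι] [DecidableEq ι] (D : ℕ) : Finset (ι →₀ ℕ) :=
  Finset.Iic (Finsupp.equivFunOnFinite.symm fun _ => D)

/-- the polynomial with given coefficients -/
noncomputable def poly {D : ℕ} (a : expo ι D → 𝕜) : MvPolynomial ι 𝕜 :=
  ∑ e : expo ι D, monomial e.1 (a e)

theorem poly_ne {D : ℕ} (a : expo ι D → 𝕜) (ha : a ≠ 0) : poly a ≠ 0 := by
  classical
  intro h
  apply ha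
  funext e
  have h1 := congrArg (coeff e.1) h
  unfold poly at h1
  rw [coeff_sum, Finset.sum_eq_single e] at h1
  · rw [coeff_monomial, if_pos rfl, coeff_zero] at h1
    exact h1
  · intro f _ hf
    rw [coeff_monomial, if_neg]
    exact fun h2 => hf (Subtype.ext h2)
  · intro h2
    exact absurd (Finset.mem_univ e) h2

theorem poly_of {D : ℕ} (p : MvPolynomial ι 𝕜) (hp : p.totalDegree ≤ D) :
    ∃ a : expo ι D → 𝕜, poly a = p := by
  classical
  refine ⟨fun e => coeff e.1 p, ?_⟩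
  unfold poly
  rw [Finset.sum_coe_sort (expo ι D) (fun e => monomial e (coeff e p))]
  conv_rhs => rw [p.as_sum]
  symm
  apply Finset.sum_subset
  · intro e he
    unfold expo
    rw [Finset.mem_Iic, Finsupp.le_def]
    intro i
    have h1 : e i ≤ p.totalDegree := by
      refine le_trans ?_ (le_totalDegree he)
      by_cases h2 : e i = 0
      · rw [h2]; exact Nat.zero_le _
      · exact Finset.single_le_sum (f := fun j => e j) (fun _ _ => Nat.zero_le _) (Finsupp.mem_support_iff.2 h2)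
    exact h1.trans hp
  · intro e _ he
    rw [notMem_support_iff.1 he, map_zero]

theorem aeval_poly {D : ℕ} (a : expo ι D → 𝕜) (y : ι → 𝕜) :
    aeval y (poly a) = ∑ e : expo ι D, a e * ∏ i, y i ^ (e.1 i) := by
  unfold poly
  rw [map_sum]
  refine Finset.sum_congr rfl fun e _ => ?_
  rw [aeval_monomial, Finsupp.prod_fintype _ _ (fun i => pow_zero _)]
  rfl

theorem poly_cont (D : ℕ) :
    Continuous (fun t : (expo ι D → 𝕜) × (ι → 𝕜) => (aeval t.2 (poly t.1) : 𝕜)) := by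
  simp only [aeval_poly]
  fun_prop

theorem eval_cont (p : MvPolynomial ι 𝕜) : Continuous fun y : ι → 𝕜 => (aeval y p : 𝕜) := by
  simpa [aeval_eq_eval] using p.continuous_eval

theorem low_bound {X : Type*} (U : Finset (X × ℝ)) (h : ∀ u ∈ U, 0 < u.2) :
    ∃ ρ : ℝ, 0 < ρ ∧ ρ ≤ 1 / 2 ∧ ∀ u ∈ U, ρ ≤ u.2 := by
  classical
  induction U using Finset.induction_on with
  | empty => exact ⟨1 / 2, by norm_num, le_refl _, by simp⟩
  | insert a F ha ih =>
    obtain ⟨ρ, h1, h2, h3⟩ := ih fun u hu => h u (Finset.mem_insert_of_mem hu)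
    refine ⟨min ρ a.2, lt_min h1 (h a (Finset.mem_insert_self _ _)), (min_le_left _ _).trans h2, ?_⟩
    intro u hu
    rcases Finset.mem_insert.1 hu with rfl | hu
    · exact min_le_right _ _
    · exact (min_le_left _ _).trans (h3 u hu)

/-- for `S` a set of coefficient vectors: covers of the zero sets in the unit ball with balls that are not too small -/
def UC (D : ℕ) (s : ℝ) (S : Set (expo ι D → 𝕜)) : Prop :=
  ∃ ρ : ℝ, 0 < ρ ∧ ρ ≤ 1 / 2 ∧ ∀ a ∈ S, ∃ U : Finset ((ι → 𝕜) × ℝ), (∀ u ∈ U, ρ ≤ u.2 ∧ u.2 ≤ 1 / 2) ∧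
    (∀ y ∈ Metric.closedBall (0 : ι → 𝕜) 1, aeval y (poly a) = 0 → ∃ u ∈ U, dist y u.1 < u.2) ∧
    ∑ u ∈ U, u.2 ^ s ≤ 1

theorem uc_sphere (D : ℕ) (s : ℝ) (hs : ((Module.finrank ℝ 𝕜 * (Fintype.card ι - 1) : ℕ) : ℝ) < s) :
    UC D s (Metric.sphere (0 : expo ι D → 𝕜) 1) := by
  classical
  have hs0 : 0 < s := lt_of_le_of_lt (Nat.cast_nonneg _) hs
  apply IsCompact.induction_on (isCompact_sphere (0 : expo ι D → 𝕜) 1) (p := UC D s)
  · exact ⟨1 / 2, by norm_num, le_refl _, fun a ha => absurd ha (Set.notMem_empty a)⟩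
  · rintro S T hST ⟨ρ, h1, h2, h3⟩
    exact ⟨ρ, h1, h2, fun a ha => h3 a (hST ha)⟩
  · rintro S T ⟨ρ, h1, h2, h3⟩ ⟨ρ', h1', h2', h3'⟩
    refine ⟨min ρ ρ', lt_min h1 h1', (min_le_left _ _).trans h2, ?_⟩
    rintro a (ha | ha)
    · obtain ⟨U, h4, h5⟩ := h3 a ha
      exact ⟨U, fun u hu => ⟨(min_le_left _ _).trans (h4 u hu).1, (h4 u hu).2⟩, h5⟩
    · obtain ⟨U, h4, h5⟩ := h3' a ha
      exact ⟨U, fun u hu => ⟨(min_le_right _ _).trans (h4 u hu).1, (h4 u hu).2⟩, h5⟩
  · intro a ha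
    have ha0 : a ≠ 0 := by
      intro h
      rw [h, mem_sphere_zero_iff_norm, norm_zero] at ha
      exact zero_ne_one ha
    have hcont : Continuous fun y : ι → 𝕜 => (aeval y (poly a) : 𝕜) := eval_cont _
    have hcl : IsClosed {y : ι → 𝕜 | aeval y (poly a) = 0} := isClosed_eq hcont continuous_const
    have hK : IsCompact (Metric.closedBall (0 : ι → 𝕜) 1 ∩ {y : ι → 𝕜 | aeval y (poly a) = 0}) :=
      (isCompact_closedBall _ _).inter_right hcl
    have hdim : dimH (Metric.closedBall (0 : ι → 𝕜) 1 ∩ {y : ι → 𝕜 | aeval y (poly a) = 0}) <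
        ((s.toNNReal : ℝ≥0) : ℝ≥0∞) := by
      refine lt_of_le_of_lt ((dimH_mono Set.inter_subset_right).trans (dimH_zeros _ (poly_ne a ha0))) ?_
      have h1 : ((Module.finrank ℝ 𝕜 * (Fintype.card ι - 1) : ℕ) : ℝ≥0) < s.toNNReal := by
        rw [← NNReal.coe_lt_coe, Real.coe_toNNReal _ hs0.le]
        exact_mod_cast hs
      exact_mod_cast h1
    have hμ : μH[s] (Metric.closedBall (0 : ι → 𝕜) 1 ∩ {y : ι → 𝕜 | aeval y (poly a) = 0}) = 0 := by
      have := hausdorffMeasure_of_dimH_lt hdim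
      rwa [Real.coe_toNNReal _ hs0.le] at this
    obtain ⟨U, hU1, hU2, hU3⟩ := fin_cover _ hK s hs0 hμ (1 / 2) (by norm_num)
    obtain ⟨ρ, hρ1, hρ2, hρ3⟩ := low_bound U fun u hu => (hU1 u hu).1
    have hC : IsCompact (Metric.closedBall (0 : ι → 𝕜) 1 ∩ (⋃ u ∈ U, Metric.ball u.1 u.2)ᶜ) := by
      refine (isCompact_closedBall _ _).inter_right ?_
      exact (isOpen_biUnion fun u _ => Metric.isOpen_ball).isClosed_compl
    have hev : ∀ᶠ a' in 𝓝 a, ∀ y ∈ Metric.closedBall (0 : ι → 𝕜) 1 ∩ (⋃ u ∈ U, Metric.ball u.1 u.2)ᶜ,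
        (aeval y (poly a') : 𝕜) ≠ 0 := by
      refine hC.eventually_forall_of_forall_eventually ?_
      rintro y ⟨hy1, hy2⟩
      have h1 : (aeval y (poly a) : 𝕜) ≠ 0 := by
        intro h2
        obtain ⟨u, hu, hyu⟩ := hU2 y ⟨hy1, h2⟩
        exact hy2 (Set.mem_iUnion₂.2 ⟨u, hu, hyu⟩)
      have hc : ContinuousAt (fun t : (expo ι D → 𝕜) × (ι → 𝕜) => (aeval t.2 (poly t.1) : 𝕜)) (a, y) :=
        (poly_cont D).continuousAt
      exact hc.eventually_ne h1
    refine ⟨_, mem_nhdsWithin_of_mem_nhds hev, ρ, hρ1, hρ2, fun a' ha' => ⟨U, ?_, ?_, hU3⟩⟩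
    · exact fun u hu => ⟨hρ3 u hu, (hU1 u hu).2⟩
    · intro y hy h0
      by_contra hcon
      push Not at hcon
      refine ha' y ⟨hy, ?_⟩ h0
      intro hmem
      obtain ⟨u, hu, hyu⟩ := Set.mem_iUnion₂.1 hmem
      exact absurd (Metric.mem_ball.1 hyu) (not_lt.2 (hcon u hu))

theorem unif_cover (𝕜 : Type*) [RCLike 𝕜] (ι : Type*) [Fintype ι] [DecidableEq ι] (D : ℕ) (s : ℝ)
    (hs : ((Module.finrank ℝ 𝕜 * (Fintype.card ι - 1) : ℕ) : ℝ) < s) :
    ∃ ρ : ℝ, 0 < ρ ∧ ρ ≤ 1 / 2 ∧ ∀ p : MvPolynomial ι 𝕜, p ≠ 0 → p.totalDegree ≤ D →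
      ∃ U : Finset ((ι → 𝕜) × ℝ), (∀ u ∈ U, ρ ≤ u.2 ∧ u.2 ≤ 1 / 2) ∧
        (∀ y ∈ Metric.closedBall (0 : ι → 𝕜) 1, aeval y p = 0 → ∃ u ∈ U, dist y u.1 < u.2) ∧
        ∑ u ∈ U, u.2 ^ s ≤ 1 := by
  obtain ⟨ρ, h1, h2, h3⟩ := uc_sphere (𝕜 := 𝕜) (ι := ι) D s hs
  refine ⟨ρ, h1, h2, fun p hp hD => ?_⟩
  obtain ⟨a, rfl⟩ := poly_of p hD
  have ha0 : a ≠ 0 := by
    rintro rfl
    apply hp
    unfold poly
    simp
  have hn : 0 < ‖a‖ := norm_pos_iff.2 ha0
  obtain ⟨U, h4, h5, h6⟩ := h3 (‖a‖⁻¹ • a) (by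
    rw [mem_sphere_zero_iff_norm, norm_smul, norm_inv, norm_norm, inv_mul_cancel₀ hn.ne'])
  refine ⟨U, h4, fun y hy h0 => h5 y hy ?_, h6⟩
  rw [aeval_poly] at h0 ⊢
  have h7 : ∑ e : expo ι D, (‖a‖⁻¹ • a) e * ∏ i, y i ^ (e.1 i) =
      ((‖a‖⁻¹ : ℝ) : 𝕜) * ∑ e : expo ι D, a e * ∏ i, y i ^ (e.1 i) := by
    rw [Finset.mul_sum]
    refine Finset.sum_congr rfl fun e _ => ?_
    rw [Pi.smul_apply, RCLike.real_smul_eq_coe_mul, mul_assoc]
  rw [h7, h0, mul_zero]

/-- affine substitutions -/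
theorem rescale {D : ℕ} (p : MvPolynomial ι 𝕜) (hp : p ≠ 0) (hD : p.totalDegree ≤ D) (c : ι → 𝕜)
    (R : 𝕜) (hR : R ≠ 0) : ∃ q : MvPolynomial ι 𝕜, q ≠ 0 ∧ q.totalDegree ≤ D ∧
      ∀ y : ι → 𝕜, aeval y q = aeval (fun i => c i + R * y i) p := by
  classical
  set g : ι → MvPolynomial ι 𝕜 := fun i => C (c i) + C R * X i with hg
  have hev : ∀ y : ι → 𝕜, aeval y (aeval g p) = aeval (fun i => c i + R * y i) p := by
    intro y
    rw [← AlgHom.comp_apply, comp_aeval]
    congr 1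
    congr 1
    funext i
    simp [hg]
  have hg1 : ∀ i, (g i).totalDegree ≤ 1 := by
    intro i
    refine (totalDegree_add _ _).trans (max_le ?_ ?_)
    · rw [totalDegree_C]; exact Nat.zero_le _
    · refine (totalDegree_mul _ _).trans ?_
      rw [totalDegree_C, totalDegree_X]
  refine ⟨aeval g p, ?_, ?_, hev⟩
  · intro h0
    apply hp
    apply MvPolynomial.funext
    intro y
    have h1 := hev (fun i => (y i - c i) / R)
    rw [h0, map_zero] at h1
    have h2 : (fun i => c i + R * ((y i - c i) / R)) = y := by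
      funext i
      field_simp
      ring
    rw [h2] at h1
    rw [map_zero, ← aeval_eq_eval]
    exact h1.symm
  · refine le_trans ?_ hD
    rw [aeval_def, eval₂_eq]
    apply totalDegree_finsetSum_le
    intro d hd
    refine (totalDegree_mul _ _).trans ?_
    have h1 : (algebraMap 𝕜 (MvPolynomial ι 𝕜) (coeff d p)).totalDegree = 0 := totalDegree_C _
    rw [h1, zero_add]
    refine (totalDegree_finsetProd _ _).trans ?_
    calc ∑ x ∈ d.support, (g x ^ d x).totalDegree ≤ ∑ x ∈ d.support, d x := by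
          apply Finset.sum_le_sum
          intro x _
          refine (totalDegree_pow _ _).trans ?_
          calc d x * (g x).totalDegree ≤ d x * 1 := Nat.mul_le_mul_left _ (hg1 x)
            _ = d x := mul_one _
      _ ≤ p.totalDegree := le_totalDegree hd

/-- covering numbers -/
def Cov {X : Type*} [PseudoMetricSpace X] (K : Set X) (δ m : ℝ) : Prop :=
  ∃ F : Finset X, (F.card : ℝ) ≤ m ∧ ∀ y ∈ K, ∃ c ∈ F, dist y c ≤ δ

/-- The zeros of a nonzero polynomial of degree at most `D` in a ball of radius `R` are covered by at most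
`C (R / δ) ^ s` balls of radius `δ`, for every `s > n - 1`, with `C` depending only on `n`, `D`, `s`. -/
theorem cov_zeros (𝕜 : Type*) [RCLike 𝕜] (ι : Type*) [Fintype ι] [DecidableEq ι] (D : ℕ) (s : ℝ)
    (hs : ((Module.finrank ℝ 𝕜 * (Fintype.card ι - 1) : ℕ) : ℝ) < s) :
    ∃ C : ℝ, 0 < C ∧ ∀ p : MvPolynomial ι 𝕜, p ≠ 0 → p.totalDegree ≤ D → ∀ (c : ι → 𝕜) (R δ : ℝ),
      0 < δ → δ ≤ R → Cov (Metric.closedBall c R ∩ {y | aeval y p = 0}) δ (C * (R / δ) ^ s) := by
  classical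
  have hs0 : 0 < s := lt_of_le_of_lt (Nat.cast_nonneg _) hs
  obtain ⟨ρ, hρ1, hρ2, hρ⟩ := unif_cover 𝕜 ι D s hs
  have key : ∀ k : ℕ, ∀ p : MvPolynomial ι 𝕜, p ≠ 0 → p.totalDegree ≤ D → ∀ (c : ι → 𝕜) (R δ : ℝ),
      0 < δ → ρ * δ ≤ R → R ≤ 2 ^ k * δ →
      Cov (Metric.closedBall c R ∩ {y | aeval y p = 0}) δ (ρ⁻¹ ^ s * (R / δ) ^ s) := by
    have base : ∀ (p : MvPolynomial ι 𝕜) (c : ι → 𝕜) (R δ : ℝ),
        0 < δ → ρ * δ ≤ R → R ≤ δ →
        Cov (Metric.closedBall c R ∩ {y | aeval y p = 0}) δ (ρ⁻¹ ^ s * (R / δ) ^ s) := by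
      intro p c R δ hδ h1 h2
      refine ⟨{c}, ?_, ?_⟩
      · rw [Finset.card_singleton, Nat.cast_one, ← Real.mul_rpow (by positivity) (by
          have : 0 < ρ * δ := by positivity
          exact div_nonneg (by linarith) hδ.le)]
        apply Real.one_le_rpow _ hs0.le
        rw [← mul_div_assoc, le_div_iff₀ hδ, one_mul, ← div_eq_inv_mul, le_div_iff₀ hρ1]
        linarith
      · rintro y ⟨hy, _⟩
        exact ⟨c, Finset.mem_singleton_self _, (Metric.mem_closedBall.1 hy).trans h2⟩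
    intro k
    induction k with
    | zero =>
      intro p _ _ c R δ hδ h1 h2
      exact base p c R δ hδ h1 (by simpa using h2)
    | succ k ih =>
      intro p hp hD c R δ hδ h1 h2
      by_cases hR : R ≤ δ
      · exact base p c R δ hδ h1 hR
      · rw [not_le] at hR
        have hR0 : 0 < R := hδ.trans hR
        have hRK : ((R : ℝ) : 𝕜) ≠ 0 := by
          intro h
          exact hR0.ne' (by exact_mod_cast h)
        have hRn : ‖((R : ℝ) : 𝕜)‖ = R := by rw [RCLike.norm_ofReal, abs_of_pos hR0]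
        obtain ⟨q, hq0, hqD, hq⟩ := rescale p hp hD c ((R : ℝ) : 𝕜) hRK
        obtain ⟨U, hU1, hU2, hU3⟩ := hρ q hq0 hqD
        have h3 : ∀ u ∈ U, Cov (Metric.closedBall (fun i => c i + ((R : ℝ) : 𝕜) * u.1 i) (R * u.2) ∩ {y | aeval y p = 0}) δ
            (ρ⁻¹ ^ s * (R * u.2 / δ) ^ s) := by
          intro u hu
          refine ih p hp hD _ _ δ hδ ?_ ?_
          · have := (hU1 u hu).1
            nlinarith
          · have := (hU1 u hu).2
            rw [pow_succ] at h2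
            nlinarith
        choose! F hF1 hF2 using h3
        refine ⟨U.biUnion F, ?_, ?_⟩
        · have h4 : ((U.biUnion F).card : ℝ) ≤ ∑ u ∈ U, ((F u).card : ℝ) := by
            exact_mod_cast Finset.card_biUnion_le
          refine h4.trans ((Finset.sum_le_sum hF1).trans ?_)
          have h5 : ∀ u ∈ U, ρ⁻¹ ^ s * (R * u.2 / δ) ^ s = (ρ⁻¹ ^ s * (R / δ) ^ s) * u.2 ^ s := by
            intro u hu
            have hu0 : 0 ≤ u.2 := hρ1.le.trans (hU1 u hu).1
            rw [mul_assoc, ← Real.mul_rpow (by positivity) hu0]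
            congr 2
            ring
          rw [Finset.sum_congr rfl h5, ← Finset.mul_sum]
          have h6 : 0 ≤ ρ⁻¹ ^ s * (R / δ) ^ s := by positivity
          nlinarith
        · rintro y ⟨hy, hy0⟩
          have hy1 : (fun i => (y i - c i) / ((R : ℝ) : 𝕜)) ∈ Metric.closedBall (0 : ι → 𝕜) 1 := by
            rw [mem_closedBall_zero_iff, pi_norm_le_iff_of_nonneg zero_le_one]
            intro i
            rw [norm_div, hRn, div_le_one hR0, ← dist_eq_norm]
            exact (dist_le_pi_dist y c i).trans (Metric.mem_closedBall.1 hy)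
          have hcy : (fun i => c i + ((R : ℝ) : 𝕜) * ((y i - c i) / ((R : ℝ) : 𝕜))) = y := by
            funext i
            field_simp
            ring
          obtain ⟨u, hu, hyu⟩ := hU2 _ hy1 (by rw [hq, hcy]; exact hy0)
          obtain ⟨e, he, hye⟩ := hF2 u hu y ⟨by
            rw [Metric.mem_closedBall, dist_pi_le_iff (by
              have := hρ1.le.trans (hU1 u hu).1
              positivity)]
            intro i
            have h7 := (dist_le_pi_dist _ _ i).trans hyu.le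
            rw [dist_eq_norm] at h7 ⊢
            have h8 : y i - (c i + ((R : ℝ) : 𝕜) * u.1 i) =
                ((R : ℝ) : 𝕜) * ((y i - c i) / ((R : ℝ) : 𝕜) - u.1 i) := by
              field_simp
              ring
            rw [h8, norm_mul, hRn]
            exact mul_le_mul_of_nonneg_left h7 hR0.le, hy0⟩
          exact ⟨e, Finset.mem_biUnion.2 ⟨u, hu, he⟩, hye⟩
  refine ⟨ρ⁻¹ ^ s, by positivity, fun p hp hD c R δ hδ hR => ?_⟩
  obtain ⟨k, hk⟩ := pow_unbounded_of_one_lt (R / δ) (one_lt_two : (1 : ℝ) < 2)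
  refine key k p hp hD c R δ hδ ?_ ?_
  · nlinarith
  · rw [div_lt_iff₀ hδ] at hk
    exact hk.le

end

end Pool.Agent.Helper264.NT
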